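import Pool.Agent.Run7.h214.HP.Iface

/-!
# Project HP (helper214), piece CONST: the numerical inequality (by helper216)
-/

set_option autoImplicit false
set_option linter.all false

namespace Pool.Agent.Run7.h214.HP

open Finset

lemma log_le_sum {x y : ℝ} (hx : 0 < x) (hy : 0 ≤ y) (n : ℕ)
    (h : x ≤ ∑ i ∈ range n, y ^ i / (i.factorial : ℝ)) : Real.log x ≤ y := by
  rw [← Real.log_exp y]
  exact Real.log_le_log hx (h.trans (Real.sum_le_exp_of_nonneg hy n))

theorem t_CONST : S_CONST := by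
  have l2l : 0.6931471803 < Real.log 2 := Real.log_two_gt_d9
  have l2u : Real.log 2 < 0.6931471808 := Real.log_two_lt_d9
  -- the logarithms
  have u32 : Real.log (3 / 2 : ℝ) ≤ 4054652 / 10000000 :=
    log_le_sum (by norm_num) (by norm_num) 10 (by norm_num [sum_range_succ, Nat.factorial])
  have u43 : Real.log (4 / 3 : ℝ) ≤ 2876821 / 10000000 :=
    log_le_sum (by norm_num) (by norm_num) 10 (by norm_num [sum_range_succ, Nat.factorial])
  have u54 : Real.log (5 / 4 : ℝ) ≤ 2231436 / 10000000 :=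
    log_le_sum (by norm_num) (by norm_num) 10 (by norm_num [sum_range_succ, Nat.factorial])
  have u85 : Real.log (8 / 5 : ℝ) ≤ 4700037 / 10000000 :=
    log_le_sum (by norm_num) (by norm_num) 10 (by norm_num [sum_range_succ, Nat.factorial])
  have u87 : Real.log (8 / 7 : ℝ) ≤ 1335314 / 10000000 :=
    log_le_sum (by norm_num) (by norm_num) 10 (by norm_num [sum_range_succ, Nat.factorial])
  have u74 : Real.log (7 / 4 : ℝ) ≤ 5596158 / 10000000 :=
    log_le_sum (by norm_num) (by norm_num) 12 (by norm_num [sum_range_succ, Nat.factorial])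
  have l4 : Real.log 4 = 2 * Real.log 2 := by
    rw [show (4 : ℝ) = 2 ^ 2 by norm_num, Real.log_pow]; norm_num
  have l8 : Real.log 8 = 3 * Real.log 2 := by
    rw [show (8 : ℝ) = 2 ^ 3 by norm_num, Real.log_pow]; norm_num
  rw [Real.log_div (by norm_num) (by norm_num)] at u32 u43 u54 u85 u87 u74
  rw [l4] at u43 u54 u74
  rw [l8] at u85 u87
  -- the arguments
  have a1 : Real.log (21 / 10 : ℝ) = Real.log 3 + Real.log 7 - Real.log 2 - Real.log 5 := by
    rw [show (21 / 10 : ℝ) = (3 * 7) / (2 * 5) by norm_num, Real.log_div (by norm_num) (by norm_num),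
      Real.log_mul (by norm_num) (by norm_num), Real.log_mul (by norm_num) (by norm_num)]
    ring
  have a2 : Real.log (15 / 2 : ℝ) = Real.log 3 + Real.log 5 - Real.log 2 := by
    rw [show (15 / 2 : ℝ) = (3 * 5) / 2 by norm_num, Real.log_div (by norm_num) (by norm_num),
      Real.log_mul (by norm_num) (by norm_num)]
  have a3 : Real.log (15 : ℝ) = Real.log 3 + Real.log 5 := by
    rw [show (15 : ℝ) = 3 * 5 by norm_num, Real.log_mul (by norm_num) (by norm_num)]
  have a4 : Real.log (35 : ℝ) = Real.log 5 + Real.log 7 := by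
    rw [show (35 : ℝ) = 5 * 7 by norm_num, Real.log_mul (by norm_num) (by norm_num)]
  have b1 : Real.log (1 / 9 : ℝ) = -(2 * Real.log 3) := by
    rw [show (1 / 9 : ℝ) = (3 ^ 2)⁻¹ by norm_num, Real.log_inv, Real.log_pow]; norm_num
  have b2 : Real.log (1 / 27 : ℝ) = -(3 * Real.log 3) := by
    rw [show (1 / 27 : ℝ) = (3 ^ 3)⁻¹ by norm_num, Real.log_inv, Real.log_pow]; norm_num
  have b3 : Real.log (1 / 128 : ℝ) = -(7 * Real.log 2) := by
    rw [show (1 / 128 : ℝ) = (2 ^ 7)⁻¹ by norm_num, Real.log_inv, Real.log_pow]; norm_num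
  have b4 : Real.log (1 / 450 : ℝ) = -(Real.log 2 + 2 * Real.log 3 + 2 * Real.log 5) := by
    rw [show (1 / 450 : ℝ) = (2 * 3 ^ 2 * 5 ^ 2)⁻¹ by norm_num, Real.log_inv,
      Real.log_mul (by norm_num) (by norm_num), Real.log_mul (by norm_num) (by norm_num),
      Real.log_pow, Real.log_pow]
    norm_num
  have c1 : Real.log (1 - 2 * (1 / 9) : ℝ) = Real.log 7 - 2 * Real.log 3 := by
    rw [show (1 - 2 * (1 / 9) : ℝ) = 7 / 3 ^ 2 by norm_num, Real.log_div (by norm_num) (by norm_num),
      Real.log_pow]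
    norm_num
  have c2 : Real.log (1 - 2 * (1 / 27) : ℝ) = 2 * Real.log 5 - 3 * Real.log 3 := by
    rw [show (1 - 2 * (1 / 27) : ℝ) = 5 ^ 2 / 3 ^ 3 by norm_num,
      Real.log_div (by norm_num) (by norm_num), Real.log_pow, Real.log_pow]
    norm_num
  have c3 : Real.log (1 - 2 * (1 / 128) : ℝ) = 2 * Real.log 3 + Real.log 7 - 6 * Real.log 2 := by
    rw [show (1 - 2 * (1 / 128) : ℝ) = 3 ^ 2 * 7 / 2 ^ 6 by norm_num,
      Real.log_div (by norm_num) (by norm_num), Real.log_mul (by norm_num) (by norm_num),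
      Real.log_pow, Real.log_pow]
    norm_num
  have c4 : Real.log (1 - 2 * (1 / 450) : ℝ) =
      5 * Real.log 2 + Real.log 7 - 2 * Real.log 3 - 2 * Real.log 5 := by
    rw [show (1 - 2 * (1 / 450) : ℝ) = 2 ^ 5 * 7 / (3 ^ 2 * 5 ^ 2) by norm_num,
      Real.log_div (by norm_num) (by norm_num), Real.log_mul (by norm_num) (by norm_num),
      Real.log_mul (by norm_num) (by norm_num), Real.log_pow, Real.log_pow, Real.log_pow]
    norm_num
    ring
  -- the exponential
  have hexp : Real.exp (213 / 100 - 1) ≤ 30957 / 10000 := by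
    have h1 : Real.exp (213 / 100 - 1) = Real.exp 1 * Real.exp (13 / 100) := by
      rw [← Real.exp_add]; norm_num
    have h2 := Real.exp_bound' (x := 13 / 100) (by norm_num) (by norm_num) (n := 5) (by norm_num)
    have h3 : Real.exp (13 / 100) ≤ 11388288 / 10000000 := by
      refine h2.trans ?_
      norm_num [sum_range_succ, Nat.factorial]
    have h4 := Real.exp_one_lt_d9
    rw [h1]
    have h5 : 0 < Real.exp (13 / 100) := Real.exp_pos _
    calc Real.exp 1 * Real.exp (13 / 100) ≤ 2.7182818286 * (11388288 / 10000000) :=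
          mul_le_mul h4.le h3 h5.le (by norm_num)
      _ ≤ 30957 / 10000 := by norm_num
  unfold S_CONST blk h3 Lam aa Real.negMulLog
  rw [a1, l4, a2, a3, a4, b1, b2, b3, b4, c1, c2, c3, c4, Real.log_one]
  norm_num
  linarith

end Pool.Agent.Run7.h214.HP
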