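import Pool.Agent.Run7.h214.HP.Iface

/-!
# Project HP (helper214), piece FIN: the last step (by helper216)

Adaptation of the second half of `Pool/Agent/Results/MP_14cf73_nt/PigeonholeConstant.lean`.
-/

set_option autoImplicit false
set_option linter.all false

namespace Pool.Agent.Run7.h214.HP

open Filter Topology

theorem t_FIN : S_FIN := by
  intro hsrc K hK X
  set K' : ℝ := max K 0 with hK'
  have hK'0 : 0 ≤ K' := le_max_right _ _
  have hKK' : K ≤ K' := le_max_left _ _
  have hK'1 : K' ≤ 17 / 4 := max_le hK (by norm_num)
  set δ : ℝ := 1 / 1000 with hδ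
  have hδ0 : 0 < δ := by norm_num [hδ]
  have hgap : K' < 426 / 100 * (1 - δ) := by
    rw [hδ]
    linarith
  have he0 : 0 < Real.exp 1 := Real.exp_pos 1
  have he1 : (1 : ℝ) < Real.exp 1 := Real.one_lt_exp_iff.mpr one_pos
  set B : ℝ := Real.exp 1 + K' * Real.exp 1 + |Real.log (max X 1)| with hB
  have hKe : 0 ≤ K' * Real.exp 1 := by positivity
  obtain ⟨r, m, a, b, c, Z, hr1, ha, hb, habc, hcop, h2m, hZ, hlogc, hf11, hDm, hg1, hest⟩ :=
    hsrc δ hδ0 B
  have hY : 0 < Real.log Z := by linarith
  have huR : (1 : ℝ) ≤ r := by exact_mod_cast hr1
  have hc0 : (0 : ℝ) < c := by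
    have : 0 < c := by omega
    exact_mod_cast this
  set L : ℝ := Real.log (c : ℝ) with hL
  have hmL : (m : ℝ) * Real.log 2 ≤ L := by
    rw [hL, ← Real.log_pow]
    exact Real.log_le_log (by positivity) (by exact_mod_cast h2m)
  have hLB : B < L := by linarith
  have hcL : (c : ℝ) = Real.exp L := by rw [hL, Real.exp_log hc0]
  refine ⟨a, b, c, ha, hb, habc, hcop, ?_, ?_⟩
  · have hX1 : 0 < max X 1 := lt_of_lt_of_le one_pos (le_max_right _ _)
    have h3 : Real.log (max X 1) < L := by
      refine lt_of_le_of_lt (le_abs_self _) ?_
      have : |Real.log (max X 1)| ≤ B := by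
        rw [hB]
        linarith
      linarith
    calc X ≤ max X 1 := le_max_left _ _
      _ = Real.exp (Real.log (max X 1)) := (Real.exp_log hX1).symm
      _ < Real.exp L := Real.exp_lt_exp.mpr h3
      _ = (c : ℝ) := hcL.symm
  · have hE : Real.log (Real.exp (Real.exp 1)) = Real.exp 1 := Real.log_exp _
    set n : ℕ := a * b * c with hn
    have hr0 : (0 : ℝ) < (radical n : ℝ) := by
      have : 0 < radical n := Finset.prod_pos fun p hp => (Nat.prime_of_mem_primeFactors hp).pos
      exact_mod_cast this
    have hlogH : Real.log (H n) = Real.log (radical n : ℝ) -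
        (omega n : ℝ) * Real.log (Real.log (radical n : ℝ)) := by
      have hg0 : 0 < Real.log (radical n : ℝ) := by linarith
      rw [H, Real.log_div hr0.ne' (by positivity), Real.log_pow]
    rw [← hlogH] at hest
    set h : ℝ := H' n with hh
    have hhE : Real.exp (Real.exp 1) ≤ h := le_max_right _ _
    have hh0 : 0 < h := lt_of_lt_of_le (Real.exp_pos _) hhE
    have hlh : Real.exp 1 ≤ Real.log h := by
      rw [← hE]
      exact Real.log_le_log (Real.exp_pos _) hhE
    have hlh0 : 0 < Real.log h := by linarith
    have hllh : 1 ≤ Real.log (Real.log h) := by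
      have := Real.log_le_log he0 hlh
      rwa [Real.log_exp] at this
    have hmain : Real.log h + K' * Real.log h / Real.log (Real.log h) < L := by
      rcases le_total (H n) (Real.exp (Real.exp 1)) with hcase | hcase
      · have h3 : h = Real.exp (Real.exp 1) := max_eq_right hcase
        rw [h3, hE, Real.log_exp, div_one]
        refine lt_of_le_of_lt ?_ hLB
        rw [hB]
        have : 0 ≤ |Real.log (max X 1)| := abs_nonneg _
        linarith
      · have h3 : h = H n := max_eq_left hcase
        rw [← h3] at hest
        set M : ℝ := r * Real.log Z with hM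
        have hlhM : Real.log h ≤ M := by
          have h4 : 0 < 426 / 100 * (r : ℝ) := by positivity
          linarith
        have hM0 : 0 < M := by linarith
        -- monotonicity of `x / log x`
        have hlogM : 0 < Real.log M := Real.log_pos (by linarith)
        have h5 : Real.log h / Real.log (Real.log h) ≤ M / Real.log M := by
          have h6 := Real.log_div_self_antitoneOn (a := Real.log h) (b := M) hlh
            (hlh.trans hlhM) hlhM
          simp only at h6
          rw [div_le_div_iff₀ (by linarith) hlogM]
          rw [div_le_div_iff₀ hM0 hlh0] at h6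
          linarith
        have h6 : M / Real.log M ≤ r / (1 - δ) := by
          have h7 : (1 - δ) * Real.log Z ≤ Real.log M := by
            have hm0 : 0 < (m : ℝ) * Real.log 2 := by
              have : 0 ≤ |Real.log (max X 1)| := abs_nonneg _
              linarith
            exact hf11.trans (Real.log_le_log hm0 (hmL.trans hlogc))
          rw [div_le_div_iff₀ hlogM (by norm_num [hδ])]
          calc M * (1 - δ) = r * ((1 - δ) * Real.log Z) := by
                rw [hM]
                ring
            _ ≤ r * Real.log M := by gcongr
        have h7 : K' * (r / (1 - δ)) < 426 / 100 * r := by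
          have h8 : 0 < 1 - δ := by norm_num [hδ]
          have e1 : K' * (r / (1 - δ)) = K' * r / (1 - δ) := by ring
          rw [e1, div_lt_iff₀ h8]
          calc K' * r < 426 / 100 * (1 - δ) * r := by
                apply mul_lt_mul_of_pos_right hgap
                linarith
            _ = 426 / 100 * r * (1 - δ) := by ring
        have h8 := mul_le_mul_of_nonneg_left (h5.trans h6) hK'0
        have h9 : K' * Real.log h / Real.log (Real.log h) =
            K' * (Real.log h / Real.log (Real.log h)) := by ring
        rw [h9]
        linarith
    have h10 : K * Real.log h / Real.log (Real.log h) ≤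
        K' * Real.log h / Real.log (Real.log h) := by
      gcongr
    calc h * Real.exp (K * Real.log h / Real.log (Real.log h))
        = Real.exp (Real.log h + K * Real.log h / Real.log (Real.log h)) := by
          rw [Real.exp_add, Real.exp_log hh0]
      _ < Real.exp L := by
          apply Real.exp_lt_exp.mpr
          linarith
      _ = (c : ℝ) := hcL.symm

end Pool.Agent.Run7.h214.HP
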