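import Pool.Agent.Run7.h214.HP.Iface
import Pool.Agent.Cov.PNT

/-!
# Project HP (helper214), piece LOG: two consequences of the prime number theorem (by helper216)
-/

set_option autoImplicit false
set_option linter.all false

namespace Pool.Agent.Run7.h214.HP

open Filter Topology Chebyshev MeasureTheory Finset

/-- the integral of `π(t) / t` -/
noncomputable def Jf (x : ℝ) : ℝ := ∫ t in (2 : ℝ)..x, (Nat.primeCounting ⌊t⌋₊ : ℝ) / t

lemma hintJ (a b : ℝ) (ha : 2 ≤ a) (hb : 2 ≤ b) :
    IntervalIntegrable (fun t => (Nat.primeCounting ⌊t⌋₊ : ℝ) / t) volume a b := by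
  have hmono : Monotone fun t : ℝ => (Nat.primeCounting ⌊t⌋₊ : ℝ) := by
    intro s t hst
    simp only
    exact_mod_cast Nat.monotone_primeCounting (Nat.floor_le_floor hst)
  have hi : IntervalIntegrable (fun t : ℝ => (Nat.primeCounting ⌊t⌋₊ : ℝ)) volume a b :=
    (hmono.monotoneOn _).intervalIntegrable
  have h3 := hi.mul_continuousOn (g := fun t : ℝ => t⁻¹) (by
    apply ContinuousOn.inv₀ continuousOn_id
    intro t ht
    have h4 : min a b ≤ t := ht.1
    have h5 : 2 ≤ min a b := le_min ha hb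
    simp only [id]
    intro h6
    linarith)
  exact h3

lemma J_lower {ε : ℝ} (hε : 0 < ε) (hε1 : ε < 1 / 4) :
    ∀ᶠ x : ℝ in atTop, (1 - ε) ^ 2 * (x / Real.log x) ≤ Jf x := by
  obtain ⟨t₀, ht₀⟩ := eventually_atTop.mp
    (Pool.Agent.Cov.PNT.pi_tendsto.eventually (lt_mem_nhds (show 1 - ε < 1 by linarith)))
  filter_upwards [eventually_ge_atTop (t₀ / ε), eventually_ge_atTop (8 / ε)] with x h1 h2
  have h8 : 8 ≤ ε * x := by
    rw [div_le_iff₀ hε] at h2
    linarith
  have ht : t₀ ≤ ε * x := by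
    rw [div_le_iff₀ hε] at h1
    linarith
  have hx8 : 8 ≤ x := by nlinarith
  have hx0 : 0 < x := by linarith
  have hlx : 0 < Real.log x := Real.log_pos (by linarith)
  have hex : ε * x ≤ x := by nlinarith
  have hsplit := intervalIntegral.integral_add_adjacent_intervals
    (hintJ 2 (ε * x) le_rfl (by linarith)) (hintJ (ε * x) x (by linarith) (by linarith))
  have hJ : Jf x = (∫ t in (2 : ℝ)..(ε * x), (Nat.primeCounting ⌊t⌋₊ : ℝ) / t) +
      ∫ t in (ε * x)..x, (Nat.primeCounting ⌊t⌋₊ : ℝ) / t := hsplit.symm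
  have hA : 0 ≤ ∫ t in (2 : ℝ)..(ε * x), (Nat.primeCounting ⌊t⌋₊ : ℝ) / t := by
    apply intervalIntegral.integral_nonneg (by linarith)
    intro t ht
    have : (0 : ℝ) < t := by linarith [ht.1]
    positivity
  have hB : (x - ε * x) * ((1 - ε) / Real.log x) ≤
      ∫ t in (ε * x)..x, (Nat.primeCounting ⌊t⌋₊ : ℝ) / t := by
    have h8' : ∫ _ in (ε * x)..x, (1 - ε) / Real.log x = (x - ε * x) * ((1 - ε) / Real.log x) := by
      rw [intervalIntegral.integral_const, smul_eq_mul]
    rw [← h8']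
    refine intervalIntegral.integral_mono_on hex (by simp) (hintJ (ε * x) x (by linarith) (by linarith))
      fun t ht' => ?_
    have ht0 : (0 : ℝ) < t := by linarith [ht'.1]
    have hlt : 0 < Real.log t := Real.log_pos (by linarith [ht'.1])
    have hle : Real.log t ≤ Real.log x := Real.log_le_log ht0 ht'.2
    have h9 := ht₀ t (by linarith [ht'.1])
    rw [lt_div_iff₀ ht0] at h9
    rw [div_le_div_iff₀ hlx ht0]
    calc (1 - ε) * t ≤ (Nat.primeCounting ⌊t⌋₊ : ℝ) * Real.log t := h9.le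
      _ ≤ (Nat.primeCounting ⌊t⌋₊ : ℝ) * Real.log x := by gcongr
  have e : (x - ε * x) * ((1 - ε) / Real.log x) = (1 - ε) ^ 2 * (x / Real.log x) := by ring
  rw [hJ]
  linarith

lemma J_upper {ε : ℝ} (hε : 0 < ε) (hε1 : ε < 1 / 4) :
    ∀ᶠ x : ℝ in atTop, Jf x ≤ √x + 4 * ε * (x / Real.log x) + (1 + ε) * (x / Real.log (ε * x)) := by
  obtain ⟨t₀, ht₀⟩ := eventually_atTop.mp
    (Pool.Agent.Cov.PNT.pi_tendsto.eventually (gt_mem_nhds (show (1 : ℝ) < 1 + ε by linarith)))
  filter_upwards [eventually_ge_atTop ((|t₀| + 8) ^ 2 / ε), eventually_ge_atTop (1 / ε ^ 2)] with x h1 h2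
  have hx1 : (|t₀| + 8) ^ 2 ≤ x * ε := by
    rwa [div_le_iff₀ hε] at h1
  have ht0a : 0 ≤ |t₀| := abs_nonneg _
  have h64 : 64 ≤ x * ε := by nlinarith
  have hx0 : 0 < x := by
    by_contra hcon
    rw [not_lt] at hcon
    nlinarith
  have hx64 : 64 ≤ x := by nlinarith
  have hxx : (|t₀| + 8) ^ 2 ≤ x := by nlinarith
  have hs : |t₀| + 8 ≤ √x := Real.le_sqrt_of_sq_le hxx
  have hs0 : 0 < √x := by linarith
  have hss : √x * √x = x := Real.mul_self_sqrt hx0.le
  have hsx : √x ≤ ε * x := by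
    have h3 : 1 ≤ ε ^ 2 * x := by
      rw [div_le_iff₀ (by positivity)] at h2
      linarith
    have h4 : 1 ≤ ε * √x := by
      have h5 : (1 : ℝ) ^ 2 ≤ (ε * √x) ^ 2 := by
        have : (ε * √x) ^ 2 = ε ^ 2 * x := by rw [mul_pow, Real.sq_sqrt hx0.le]
        rw [this]; linarith
      exact (pow_le_pow_iff_left₀ (by norm_num) (by positivity) (by norm_num)).1 h5
    calc √x = 1 * √x := (one_mul _).symm
      _ ≤ (ε * √x) * √x := mul_le_mul_of_nonneg_right h4 hs0.le
      _ = ε * x := by rw [mul_assoc, hss]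
  have hex : ε * x ≤ x := by nlinarith
  have hlx : 0 < Real.log x := Real.log_pos (by linarith)
  have hlex : 0 < Real.log (ε * x) := Real.log_pos (by linarith)
  have hlsx : Real.log (√x) = Real.log x / 2 := Real.log_sqrt hx0.le
  have hs1 := intervalIntegral.integral_add_adjacent_intervals
    (hintJ 2 (ε * x) le_rfl (by linarith)) (hintJ (ε * x) x (by linarith) (by linarith))
  have hs2 := intervalIntegral.integral_add_adjacent_intervals
    (hintJ 2 (√x) le_rfl (by linarith)) (hintJ (√x) (ε * x) (by linarith) (by linarith))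
  have hJ : Jf x = (∫ t in (2 : ℝ)..√x, (Nat.primeCounting ⌊t⌋₊ : ℝ) / t) +
      (∫ t in (√x)..(ε * x), (Nat.primeCounting ⌊t⌋₊ : ℝ) / t) +
      ∫ t in (ε * x)..x, (Nat.primeCounting ⌊t⌋₊ : ℝ) / t := by
    rw [hs2]
    exact hs1.symm
  have hA : (∫ t in (2 : ℝ)..√x, (Nat.primeCounting ⌊t⌋₊ : ℝ) / t) ≤ √x := by
    have h8' : ∫ _ in (2 : ℝ)..√x, (1 : ℝ) = (√x - 2) * 1 := by
      rw [intervalIntegral.integral_const, smul_eq_mul]
    have h9 : (∫ t in (2 : ℝ)..√x, (Nat.primeCounting ⌊t⌋₊ : ℝ) / t) ≤ ∫ _ in (2 : ℝ)..√x, (1 : ℝ) := by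
      refine intervalIntegral.integral_mono_on (by linarith) (hintJ 2 (√x) le_rfl (by linarith)) (by simp)
        fun t ht' => ?_
      have ht0 : (0 : ℝ) < t := by linarith [ht'.1]
      rw [div_le_one ht0]
      have h10 : Nat.primeCounting ⌊t⌋₊ ≤ ⌊t⌋₊ := by
        rw [← Nat.primesLE_card_eq_primeCounting]
        have h12 : Nat.primesLE ⌊t⌋₊ ⊆ Finset.Icc 1 ⌊t⌋₊ := by
          intro p hp
          rw [Nat.mem_primesLE] at hp
          rw [Finset.mem_Icc]
          exact ⟨hp.2.one_le, hp.1⟩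
        refine (Finset.card_le_card h12).trans ?_
        rw [Nat.card_Icc]
        omega
      have h11 : (Nat.primeCounting ⌊t⌋₊ : ℝ) ≤ (⌊t⌋₊ : ℝ) := by exact_mod_cast h10
      exact h11.trans (Nat.floor_le ht0.le)
    linarith
  have hB : (∫ t in (√x)..(ε * x), (Nat.primeCounting ⌊t⌋₊ : ℝ) / t) ≤ 4 * ε * (x / Real.log x) := by
    have h8' : ∫ _ in (√x)..(ε * x), 4 / Real.log x = (ε * x - √x) * (4 / Real.log x) := by
      rw [intervalIntegral.integral_const, smul_eq_mul]
    have h9 : (∫ t in (√x)..(ε * x), (Nat.primeCounting ⌊t⌋₊ : ℝ) / t) ≤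
        ∫ _ in (√x)..(ε * x), 4 / Real.log x := by
      refine intervalIntegral.integral_mono_on hsx (hintJ (√x) (ε * x) (by linarith) (by linarith)) (by simp)
        fun t ht' => ?_
      have ht0 : (0 : ℝ) < t := by linarith [ht'.1]
      have hlt : Real.log x / 2 ≤ Real.log t := by
        rw [← hlsx]
        exact Real.log_le_log hs0 ht'.1
      have h10 := ht₀ t (by linarith [ht'.1, le_abs_self t₀])
      rw [div_lt_iff₀ ht0] at h10
      rw [div_le_div_iff₀ ht0 hlx]
      have hp : 0 ≤ (Nat.primeCounting ⌊t⌋₊ : ℝ) := Nat.cast_nonneg _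
      have h11 : (Nat.primeCounting ⌊t⌋₊ : ℝ) * (Real.log x / 2) ≤ (Nat.primeCounting ⌊t⌋₊ : ℝ) * Real.log t :=
        mul_le_mul_of_nonneg_left hlt hp
      nlinarith
    have h10 : 0 < 4 / Real.log x := by positivity
    have h11 : (ε * x - √x) * (4 / Real.log x) ≤ (ε * x) * (4 / Real.log x) :=
      mul_le_mul_of_nonneg_right (by linarith) h10.le
    have e : (ε * x) * (4 / Real.log x) = 4 * ε * (x / Real.log x) := by ring
    linarith
  have hC : (∫ t in (ε * x)..x, (Nat.primeCounting ⌊t⌋₊ : ℝ) / t) ≤ (1 + ε) * (x / Real.log (ε * x)) := by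
    have h8' : ∫ _ in (ε * x)..x, (1 + ε) / Real.log (ε * x) = (x - ε * x) * ((1 + ε) / Real.log (ε * x)) := by
      rw [intervalIntegral.integral_const, smul_eq_mul]
    have h9 : (∫ t in (ε * x)..x, (Nat.primeCounting ⌊t⌋₊ : ℝ) / t) ≤
        ∫ _ in (ε * x)..x, (1 + ε) / Real.log (ε * x) := by
      refine intervalIntegral.integral_mono_on hex (hintJ (ε * x) x (by linarith) (by linarith)) (by simp)
        fun t ht' => ?_
      have ht0 : (0 : ℝ) < t := by linarith [ht'.1]
      have hlt : Real.log (ε * x) ≤ Real.log t := Real.log_le_log (by linarith) ht'.1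
      have h10 := ht₀ t (by linarith [ht'.1, le_abs_self t₀])
      rw [div_lt_iff₀ ht0] at h10
      rw [div_le_div_iff₀ ht0 hlex]
      have hp : 0 ≤ (Nat.primeCounting ⌊t⌋₊ : ℝ) := Nat.cast_nonneg _
      have h11 := mul_le_mul_of_nonneg_left hlt hp
      linarith
    have h10 : 0 < (1 + ε) / Real.log (ε * x) := by positivity
    have h11 : (x - ε * x) * ((1 + ε) / Real.log (ε * x)) ≤ x * ((1 + ε) / Real.log (ε * x)) :=
      mul_le_mul_of_nonneg_right (by nlinarith) h10.le
    have e : x * ((1 + ε) / Real.log (ε * x)) = (1 + ε) * (x / Real.log (ε * x)) := by ring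
    linarith
  rw [hJ]
  linarith

lemma log_ratio {s : ℝ} (hs : 0 < s) :
    Tendsto (fun x : ℝ => Real.log x / Real.log (s * x)) atTop (𝓝 1) := by
  have h1 : Tendsto (fun x : ℝ => Real.log s / Real.log x + 1) atTop (𝓝 (0 + 1)) :=
    (tendsto_const_nhds.div_atTop Real.tendsto_log_atTop).add tendsto_const_nhds
  rw [zero_add] at h1
  have h2 := h1.inv₀ one_ne_zero
  rw [inv_one] at h2
  refine h2.congr' ?_
  filter_upwards [eventually_gt_atTop 1, eventually_gt_atTop (1 / s)] with x hx hx2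
  have hx0 : 0 < x := by linarith
  have hl : 0 < Real.log x := Real.log_pos hx
  rw [Real.log_mul hs.ne' hx0.ne']
  have h3 : Real.log s / Real.log x + 1 = (Real.log s + Real.log x) / Real.log x := by
    field_simp
  rw [h3, inv_div]

lemma J_tendsto : Tendsto (fun x : ℝ => Jf x * (Real.log x / x)) atTop (𝓝 1) := by
  rw [tendsto_order]
  constructor
  · intro a ha
    set ε : ℝ := min (1 / 8) ((1 - a) / 4) with hε
    have hε0 : 0 < ε := lt_min (by norm_num) (by linarith)
    have hε1 : ε ≤ 1 / 8 := min_le_left _ _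
    have hε2 : ε ≤ (1 - a) / 4 := min_le_right _ _
    filter_upwards [J_lower hε0 (by linarith), eventually_gt_atTop 1] with x h1 hx
    have hl : 0 < Real.log x := Real.log_pos hx
    have hx0 : 0 < x := by linarith
    have h2 := mul_le_mul_of_nonneg_right h1 (show 0 ≤ Real.log x / x by positivity)
    have e : (1 - ε) ^ 2 * (x / Real.log x) * (Real.log x / x) = (1 - ε) ^ 2 := by
      field_simp
    rw [e] at h2
    nlinarith
  · intro b hb
    set ε : ℝ := min (1 / 8) ((b - 1) / 16) with hε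
    have hε0 : 0 < ε := lt_min (by norm_num) (by linarith)
    have hε1 : ε ≤ 1 / 8 := min_le_left _ _
    have hε2 : ε ≤ (b - 1) / 16 := min_le_right _ _
    have hr := (log_ratio hε0).eventually (gt_mem_nhds (show (1 : ℝ) < 1 + ε by linarith))
    have hsq : Tendsto (fun x : ℝ => Real.log x / √x) atTop (𝓝 0) := by
      have h := (isLittleO_log_rpow_atTop (r := 1 / 2) (by norm_num)).tendsto_div_nhds_zero
      refine h.congr fun x => ?_
      rw [Real.sqrt_eq_rpow]
    have hq := hsq.eventually (gt_mem_nhds hε0)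
    filter_upwards [J_upper hε0 (by linarith), hr, hq, eventually_gt_atTop 1,
      eventually_gt_atTop (1 / ε)] with x h1 h2 h3 hx hx2
    have hl : 0 < Real.log x := Real.log_pos hx
    have hx0 : 0 < x := by linarith
    have hex : 1 < ε * x := by
      rw [div_lt_iff₀ hε0] at hx2
      linarith
    have hle : 0 < Real.log (ε * x) := Real.log_pos hex
    have h4 := mul_le_mul_of_nonneg_right h1 (show 0 ≤ Real.log x / x by positivity)
    have hss : √x * √x = x := Real.mul_self_sqrt hx0.le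
    have hs0 : 0 < √x := Real.sqrt_pos.2 hx0
    have e : (√x + 4 * ε * (x / Real.log x) + (1 + ε) * (x / Real.log (ε * x))) * (Real.log x / x) =
        Real.log x / √x + 4 * ε + (1 + ε) * (Real.log x / Real.log (ε * x)) := by
      have e1 : √x * (Real.log x / x) = Real.log x / √x := by
        rw [mul_div_assoc', div_eq_div_iff hx0.ne' hs0.ne']
        calc √x * Real.log x * √x = Real.log x * (√x * √x) := by ring
          _ = Real.log x * x := by rw [hss]
      have e2 : 4 * ε * (x / Real.log x) * (Real.log x / x) = 4 * ε := by field_simp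
      have e3 : (1 + ε) * (x / Real.log (ε * x)) * (Real.log x / x) =
          (1 + ε) * (Real.log x / Real.log (ε * x)) := by field_simp
      rw [add_mul, add_mul, e1, e2, e3]
    rw [e] at h4
    have h5 : (1 + ε) * (Real.log x / Real.log (ε * x)) ≤ (1 + ε) * (1 + ε) :=
      mul_le_mul_of_nonneg_left h2.le (by linarith)
    nlinarith

lemma sum_eq {s Y : ℝ} (hs : 0 < s) (hY : 0 < Y) (hsY : 2 ≤ s * Y) :
    ∑ p ∈ Nat.primesLE ⌊s * Y⌋₊, Real.log ((p : ℝ) / Y) =
      (Nat.primeCounting ⌊s * Y⌋₊ : ℝ) * Real.log s - Jf (s * Y) := by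
  have h1 : ∑ p ∈ Nat.primesLE ⌊s * Y⌋₊, Real.log ((p : ℝ) / Y) =
      ∑ p ∈ Nat.primesLE ⌊s * Y⌋₊, (Real.log (p : ℝ) - Real.log Y) := by
    apply Finset.sum_congr rfl
    intro p hp
    rw [Nat.mem_primesLE] at hp
    have hp0 : (p : ℝ) ≠ 0 := by exact_mod_cast hp.2.ne_zero
    rw [Real.log_div hp0 hY.ne']
  rw [h1, Finset.sum_sub_distrib, Finset.sum_const, nsmul_eq_mul,
    Nat.primesLE_card_eq_primeCounting, ← Chebyshev.theta_eq_sum_primesLE,
    Chebyshev.theta_eq_primeCounting_mul_log_sub_integral hsY, Real.log_mul hs.ne' hY.ne']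
  unfold Jf
  ring

theorem t_LOG : S_LOG := by
  intro s hs
  have htop : Tendsto (fun Y : ℝ => s * Y) atTop atTop := tendsto_id.const_mul_atTop hs
  have hratio := log_ratio hs
  have h1 : Tendsto (fun Y : ℝ => (Nat.primeCounting ⌊s * Y⌋₊ : ℝ) * (Real.log Y / Y)) atTop (𝓝 s) := by
    have h2 := ((Pool.Agent.Cov.PNT.pi_tendsto.comp htop).mul_const s).mul hratio
    rw [one_mul, mul_one] at h2
    refine h2.congr' ?_
    filter_upwards [eventually_gt_atTop 1, eventually_gt_atTop (1 / s)] with Y hY hY2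
    have hY0 : 0 < Y := by linarith
    have hsY : 1 < s * Y := by
      rw [div_lt_iff₀ hs] at hY2
      linarith
    have hl : Real.log (s * Y) ≠ 0 := (Real.log_pos hsY).ne'
    simp only [Function.comp]
    field_simp
  refine ⟨h1, ?_⟩
  have h2 : Tendsto (fun Y : ℝ => Jf (s * Y) * (Real.log Y / Y)) atTop (𝓝 s) := by
    have h3 := ((J_tendsto.comp htop).mul_const s).mul hratio
    rw [one_mul, mul_one] at h3
    refine h3.congr' ?_
    filter_upwards [eventually_gt_atTop 1, eventually_gt_atTop (1 / s)] with Y hY hY2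
    have hY0 : 0 < Y := by linarith
    have hsY : 1 < s * Y := by
      rw [div_lt_iff₀ hs] at hY2
      linarith
    have hl : Real.log (s * Y) ≠ 0 := (Real.log_pos hsY).ne'
    simp only [Function.comp]
    field_simp
  have h4 := (h1.mul_const (Real.log s)).sub h2
  refine h4.congr' ?_
  filter_upwards [eventually_gt_atTop 1, eventually_gt_atTop (2 / s)] with Y hY hY2
  have hY0 : 0 < Y := by linarith
  have hsY : 2 ≤ s * Y := by
    rw [div_lt_iff₀ hs] at hY2
    linarith
  rw [sum_eq hs hY0 hsY]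
  ring

end Pool.Agent.Run7.h214.HP
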