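import Mathlib

/-!
# Larger constant for MP_14cf73_nt (helper214): interface

Goal: admissible triples with `c > H exp (K log H / log log H)` for every `K ≤ 4.25` (the starting
file `PigeonholeConstant` has `K < 2 + 4 log (3/2) = 3.6218…`).

Idea. `Y` large, `N = Y / log Y`, the primes `p ∈ (Y/100, 35 Y]`, `t_p = log (p / Y)`. Vectors
`x_p ∈ {0, 1, 2}`, chosen from a product distribution depending on `p / Y`; the classes are
`(∏ p ^ x_p mod 2 ^ m, ∑ x_p)`. By the PAIR lemma two vectors in one class have a small distance for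
a kernel which majorises the cost. TRI turns the pair into a triple.

Every piece below is a closed `Prop`; its complete proof is in the doc string.
Prove `theorem t_XXX : S_XXX` in `Pool/Agent/Run7/h214/HP/<XXX>.lean` (namespace
`Pool.Agent.Run7.h214.HP`).
-/

set_option autoImplicit false

namespace Pool.Agent.Run7.h214.HP

open Finset Filter Topology

/-- PIECE PAIR (about 200 lines, plain Mathlib, finite sums only).

Blichfeldt/Plotkin argument for a product distribution: if the number of classes is smaller than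
`exp (entropy - η n)`, then two different points of one class have squared distance at most the
average squared distance plus `η n`.

PROOF. Put `n = card ι`, `W x = ∏ i, P i (x i)`, `H i = ∑ a, negMulLog (P i a)`,
`fb i l = ∑ a, P i a * f i l a` (mean), `z i a = ∑ l, (f i l a - fb i l) ^ 2`,
`Z i = ∑ a, P i a * z i a` (variance). All `P i a ∈ [0, 1]`.
(1) `∑ x, W x = 1`: `Finset.prod_univ_sum` (with `Fintype.piFinset_univ`) reversed.
(2) If `g : ι → X → ℝ` satisfies `∑ a, P i a * g i a = 0` for all `i`, then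
  `∑ x, W x * (∑ i, g i (x i)) ^ 2 = ∑ i, ∑ a, P i a * g i a ^ 2`: expand the square as
  `∑ j, ∑ k, g j (x j) * g k (x k)`, swap the sums; for fixed `j, k` the function
  `W x * g j (x j) * g k (x k)` is `∏ i, h i (x i)` with `h i a = P i a` times the factor(s) for
  `i = j`, `i = k`; by `prod_univ_sum` the sum is `∏ i, ∑ a, h i a`, which contains the factor
  `∑ a, P j a * g j a = 0` if `j ≠ k`, and is `∑ a, P j a * g j a ^ 2` if `j = k`.
(3) `g i a = - log (P i a) - H i` is centred (`P i a * (- log (P i a)) = negMulLog (P i a)`) and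
  `∑ a, P i a * g i a ^ 2 ≤ C ^ 2`, because `0 ≤ - log (P i a) ≤ C` whenever `P i a ≠ 0`, so also
  `0 ≤ H i ≤ C`. The function `z i a - Z i` is centred and `|z i a - Z i| ≤ 4 C` since
  `∑ l, (f i l a - fb i l) ^ 2 ≤ 2 ∑ l, f i l a ^ 2 + 2 ∑ l, fb i l ^ 2 ≤ 4 C` (Cauchy-Schwarz or
  Jensen: `fb i l ^ 2 ≤ ∑ a, P i a * f i l a ^ 2`).
(4) Chebyshev with `θ = η / 16`: the set `T` of the `x` with `W x ≠ 0`,
  `∑ i, (- log (P i (x i))) ≥ ∑ i, H i - θ n` and `∑ i, z i (x i) ≤ ∑ i, Z i + θ n` has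
  `∑ x ∈ T, W x ≥ 1 - C ^ 2 / (θ ^ 2 n) - 16 C ^ 2 / (θ ^ 2 n) ≥ 1 / 2` for
  `n ≥ n0 ≥ 34 C ^ 2 / θ ^ 2`.
  For `x ∈ T`: `W x = exp (- ∑ i, (- log (P i (x i)))) ≤ exp (- ∑ i, H i + θ n)`.
(5) Some class `v` has `M := ∑ x ∈ T with cl x = v, W x ≥ 1 / (2 card V)`. Let `T'` be this set.
(6) With `μ x = W x / M` on `T'` (a probability): for each `i, l`
  `∑ x ∈ T', ∑ y ∈ T', μ x μ y (f i l (x i) - f i l (y i)) ^ 2 ≤ 2 ∑ x ∈ T', μ x (f i l (x i) - fb i l) ^ 2`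
  (put `u x = f i l (x i) - fb i l`; the left side is `2 ∑ μ u ^ 2 - 2 (∑ μ u) ^ 2`).
  Sum over `i, l`: the average of `D x y := ∑ i, ∑ l, (f i l (x i) - f i l (y i)) ^ 2` over
  `μ × μ` is at most `2 (∑ i, Z i + θ n)`.
(7) `∑ x ∈ T', μ x ^ 2 ≤ max μ ≤ exp (- ∑ H + θ n) * 2 card V ≤ 2 exp (- (η - θ) n) =: δ`. If all
  pairs `x ≠ y` in `T'` had `D x y > D0 := ∑ E + η n` with
  `∑ E = ∑ i, ∑ l, ∑ a, ∑ b, P i a P i b (f i l a - f i l b) ^ 2 = 2 ∑ i, Z i`, then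
  `(1 - δ) D0 ≤ ∑ over x ≠ y of μ μ D ≤ 2 ∑ Z + 2 θ n`; but `D0 ≤ (8 C + η) n` (as `Z i ≤ 4 C`), so
  `D0 ≤ ∑ E + 2 θ n + δ (8 C + η) n < ∑ E + η n` as soon as `δ (8 C + η) < η / 2`, which holds for
  `n ≥ n0 (C, η)`. Contradiction (for `δ < 1` there is at least one pair `x ≠ y` in `T'`). -/
def S_PAIR : Prop := ∀ (C η : ℝ), 0 < C → 0 < η → ∃ n0 : ℕ,
  ∀ (ι X L V : Type) [Fintype ι] [DecidableEq ι] [Fintype X] [DecidableEq X] [Fintype L]
    [Fintype V] [DecidableEq V] (P : ι → X → ℝ) (f : ι → L → X → ℝ) (cl : (ι → X) → V),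
    n0 ≤ Fintype.card ι →
    (∀ i a, P i a = 0 ∨ Real.exp (-C) ≤ P i a) →
    (∀ i, ∑ a, P i a = 1) →
    (∀ i a, ∑ l, f i l a ^ 2 ≤ C) →
    Real.log (Fintype.card V) ≤ (∑ i, ∑ a, Real.negMulLog (P i a)) - η * Fintype.card ι →
    ∃ x y : ι → X, x ≠ y ∧ cl x = cl y ∧ (∀ i, 0 < P i (x i) ∧ 0 < P i (y i)) ∧
      ∑ i, ∑ l, (f i l (x i) - f i l (y i)) ^ 2 ≤
        (∑ i, ∑ l, ∑ a, ∑ b, P i a * P i b * (f i l a - f i l b) ^ 2) + η * Fintype.card ι

/-- PIECE TRI (about 200 lines; adapt the proof of `Pool.Agent.N9.AB.core` and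
`Pool.Agent.N9.AB.triple` in `Pool/Agent/N9/AB/Triple.lean`, which is the case `x, y ∈ {0, 1}`;
`Pool.Agent.N9.AB.decr` can be imported).

The triple given by two exponent vectors `x ≠ y` with equal sums and congruent products.
`u` = number of primes of `Q` where they differ, `Ls` = sum of the logarithms of these primes.

PROOF. `c₀ = ∏ p ∈ Q, p ^ (x p - y p)`, `b₀ = ∏ p ∈ Q, p ^ (y p - x p)` (truncated subtraction),
`g = ∏ p ∈ Q, p ^ min (x p) (y p)` (odd): `∏ p ^ x p = g c₀`, `∏ p ^ y p = g b₀`, so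
`c₀ ≡ b₀ mod 2 ^ m` (`Nat.ModEq.cancel_left_of_coprime`). They are coprime (for each `p` one of the
two exponents is `0`), and not equal (some `p` divides exactly one of them). Put
`r = ∑ p ∈ Q, (x p - y p) = ∑ p ∈ Q, (y p - x p)` (equal since `∑ x = ∑ y`), `r ≥ 1`. By symmetry
let `b₀ < c₀`; `c = c₀`, `b = b₀`, `a = c - b = 2 ^ m d`, `d ≥ 1`. Then `2 ^ m ≤ c`,
`log c = ∑ (x p - y p) log p ≤ r log B`.
Let `U = {p ∈ Q | x p ≠ y p}`, `u = card U`, `Ls = ∑ p ∈ U, log p`; `u ≤ Ls` as `log 3 > 1`, `1 ≤ u`.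
`γ = ∏ p ∈ (a b c).primeFactors, p`, `ω = card`. `U ⊆ primeFactors`, so `u ≤ ω` and `Ls ≤ log γ`.
`(abc).primeFactors ⊆ (2 * d * ∏ p ∈ U, p).primeFactors`, so
`log γ ≤ log 2 + log d + Ls ≤ Ls + log c - (m - 1) log 2 =: G`.
`G ≥ Ls` as `log c ≥ m log 2`; `G ≥ 3/2 Ls - m log 2` as
`log c ≥ (log c + log b) / 2 = ∑ ((x p - y p) + (y p - x p)) log p / 2 ≥ Ls / 2`.
Finally `log c - log γ + ω log log γ ≥ log c - log γ + u log log γ ≥ log c - G + u log G`
by `decr` (`u ≤ log γ ≤ G`), which is the claim. -/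
def S_TRI : Prop := ∀ (Q : Finset ℕ) (x y : ℕ → ℕ) (m : ℕ) (B : ℝ),
  (∀ p ∈ Q, p.Prime ∧ 3 ≤ p ∧ (p : ℝ) ≤ B) → (∃ p ∈ Q, x p ≠ y p) →
  ∑ p ∈ Q, x p = ∑ p ∈ Q, y p →
  (∏ p ∈ Q, p ^ x p) ≡ (∏ p ∈ Q, p ^ y p) [MOD 2 ^ m] →
  ∃ r a b c : ℕ, 1 ≤ r ∧ 2 * r = ∑ p ∈ Q, ((x p - y p) + (y p - x p)) ∧
    0 < a ∧ 0 < b ∧ a + b = c ∧ Nat.Coprime a b ∧ 2 ^ m ≤ c ∧
    Real.log c ≤ r * Real.log B ∧
    1 ≤ Real.log ((∏ p ∈ (a * b * c).primeFactors, p : ℕ) : ℝ) ∧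
    ∃ G : ℝ, (∑ p ∈ Q with x p ≠ y p, Real.log p) ≤ G ∧
      3 / 2 * (∑ p ∈ Q with x p ≠ y p, Real.log p) - m * Real.log 2 ≤ G ∧
      (m - 1) * Real.log 2 - (∑ p ∈ Q with x p ≠ y p, Real.log p) +
          ((Q.filter fun p => x p ≠ y p).card : ℝ) * Real.log G ≤
        Real.log c - (Real.log ((∏ p ∈ (a * b * c).primeFactors, p : ℕ) : ℝ) -
          ((a * b * c).primeFactors.card : ℝ) *
            Real.log (Real.log ((∏ p ∈ (a * b * c).primeFactors, p : ℕ) : ℝ)))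

/-- PIECE LOG (about 120 lines): two consequences of the prime number theorem
`Pool.Agent.Cov.PNT.pi_tendsto` (`π(x) log x / x → 1`, file `Pool/Agent/Cov/PNT.lean`).

PROOF. First: `π(sY) log Y / Y = [π(sY) log (sY) / (sY)] * s * [log Y / log (sY)]`, and
`log Y / log (sY) → 1`. Second: by `Chebyshev.theta_eq_primeCounting_mul_log_sub_integral`
(used in `Pool/Agent/N9/AB/Weight.lean`), with `x = s Y`:
`∑ p ≤ x, log (p / Y) = θ(x) - π(x) log Y = π(x) log s - J(x)`, `J(x) = ∫ t in 2..x, π(⌊t⌋) / t`.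
So it suffices that `J(x) log x / x → 1` (then `J(sY) log Y / Y → s`). Given `0 < ε < 1/4`:
lower bound: `J(x) ≥ ∫ t in εx..x, π(t)/t ≥ (1 - ε) (x - ε x) / log x` for large `x`
(`π(t)/t ≥ (1-ε)/log t ≥ (1-ε)/log x`). Upper bound: `π(t) ≤ t` gives `∫ t in 2..√x ≤ √x`;
`π(t)/t ≤ 2 / log t ≤ 4 / log x` on `[√x, εx]` gives at most `4 ε x / log x`; on `[εx, x]`
`π(t)/t ≤ (1+ε)/log (εx)` gives at most `(1+ε) x / log (εx)`. Divide by `x / log x`:
`√x log x / x → 0`, `log x / log (εx) → 1`. The function `t ↦ π(⌊t⌋)` is monotone, so all these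
integrals exist (see `hint` in `Weight.lean`). -/
def S_LOG : Prop := ∀ s : ℝ, 0 < s →
  Tendsto (fun Y : ℝ => (Nat.primeCounting ⌊s * Y⌋₊ : ℝ) * (Real.log Y / Y)) atTop (𝓝 s) ∧
  Tendsto (fun Y : ℝ => (∑ p ∈ Nat.primesLE ⌊s * Y⌋₊, Real.log ((p : ℝ) / Y)) *
    (Real.log Y / Y)) atTop (𝓝 (s * Real.log s - s))

/-- the entropy of `(q, 1 - 2 q, q)` -/
noncomputable def h3 (q : ℝ) : ℝ := 2 * Real.negMulLog q + Real.negMulLog (1 - 2 * q)

/-- primitive of `log` -/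
noncomputable def Lam (s : ℝ) : ℝ := s * Real.log s - s

/-- the constant `a`; `2 a = 4.26` -/
noncomputable def aa : ℝ := 213 / 100

/-- contribution of the block `(s, s']` with the distribution `(q, 1 - 2 q, q)` -/
noncomputable def blk (q s s' : ℝ) : ℝ :=
  (h3 q - 2 * aa * q ^ 2) * (s' - s) - (4 * q - 6 * q ^ 2) * (Lam s' - Lam s)

/-- PIECE CONST (about 100 lines): the numerical inequality. Left side 2.0637…, right side about
2.0729 (margin 0.009). Only logarithms of 2, 3, 5, 7 occur (`1 - 2q` is `7/9, 25/27, 63/64, 224/225`).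
`Real.log_two_gt_d9`, `Real.log_two_lt_d9`; for `log 3, log 5, log 7` prove five digit bounds, for
instance from `Real.log_le_sub_one_of_pos`-type or `Real.sum_le_exp_of_nonneg` as in
`Pool/Agent/TH871/L1/Const.lean` (`log_le_of_sum`), e.g. through `log (3/2)`, `log (5/4)`,
`log (7/8)`, `log(81/80)`, `log (225/224)`. `exp (1.13) ≤ 3.0957`. -/
def S_CONST : Prop :=
  Real.exp (aa - 1) / (3 / 2) + 1 / 200 <
    Real.log 2 * (1 - 1 / 100) + (Real.log 2 * (21 / 10 - 1) - 1 / 2 * (Lam (21 / 10) - Lam 1)) +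
      blk (1 / 9) (21 / 10) 4 + blk (1 / 27) 4 (15 / 2) + blk (1 / 128) (15 / 2) 15 +
      blk (1 / 450) 15 35

/-- `γ(n)`, the product of the primes dividing `n` -/
def radical (n : ℕ) : ℕ := ∏ p ∈ n.primeFactors, p

/-- `ω(n)`, the number of primes dividing `n` -/
def omega (n : ℕ) : ℕ := n.primeFactors.card

/-- `H(n) = γ(n) / (log γ(n)) ^ ω(n)` -/
noncomputable def H (n : ℕ) : ℝ := (radical n : ℝ) / Real.log (radical n : ℝ) ^ omega n

/-- `max (H(n), e ^ e)` -/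
noncomputable def H' (n : ℕ) : ℝ := max (H n) (Real.exp (Real.exp 1))

/-- what the construction gives -/
def Source : Prop := ∀ δ : ℝ, 0 < δ → ∀ D : ℝ, ∃ (r m a b c : ℕ) (Z : ℝ), 1 ≤ r ∧
  0 < a ∧ 0 < b ∧ a + b = c ∧ Nat.Coprime a b ∧ 2 ^ m ≤ c ∧ 1 < Real.log Z ∧
  Real.log c ≤ r * Real.log Z ∧ (1 - δ) * Real.log Z ≤ Real.log (m * Real.log 2) ∧
  D < m * Real.log 2 ∧ 1 ≤ Real.log (radical (a * b * c) : ℝ) ∧
  426 / 100 * (r : ℝ) ≤ Real.log c - (Real.log (radical (a * b * c) : ℝ) -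
    (omega (a * b * c) : ℝ) * Real.log (Real.log (radical (a * b * c) : ℝ)))

/-- PIECE FIN (about 120 lines): the last step, an adaptation of the second half of
`Pool/Agent/Results/MP_14cf73_nt/PigeonholeConstant.lean` (there `K₀ - 36 δ` is replaced by
`426 / 100`, `u` by `r`, `y` by `Z`; take `K' = max K 0`, `δ = 1 / 1000`, so that
`K' < 4.26 (1 - δ)`).

PROOF. `L = log c`, `h = H' (abc)`. If `H (abc) ≤ e ^ e` then `log h = e`, `log log h = 1` and
`log h + K' log h / log log h = e + K' e < D < L` for a suitable `D`. Otherwise `h = H (abc)`,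
`log h = log γ - ω log log γ`, `4.26 r ≤ L - log h`, so `log h ≤ L ≤ M := r log Z`. `x / log x` is
increasing for `x ≥ e`, hence `log h / log log h ≤ M / log M ≤ r / (1 - δ)` since
`log M ≥ log (m log 2) ≥ (1 - δ) log Z` (`m log 2 ≤ L ≤ M`). So
`K' log h / log log h ≤ K' r / (1 - δ) < 4.26 r ≤ L - log h`. -/
def S_FIN : Prop := Source → ∀ K : ℝ, K ≤ 17 / 4 → ∀ X : ℝ,
    ∃ a b c : ℕ, 0 < a ∧ 0 < b ∧ a + b = c ∧ Nat.Coprime a b ∧ X < c ∧
      H' (a * b * c) * Real.exp (K * Real.log (H' (a * b * c)) /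
        Real.log (Real.log (H' (a * b * c)))) < c

end Pool.Agent.Run7.h214.HP
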