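import Mathlib
import Pool.Agent.N9.AB.Triple
import Pool.Agent.Run7.h214.HP.Iface

/-!
Project HP (helper214), piece TRI (helper834): the triple given by two exponent vectors with equal sums and congruent
products. Adapted from `Pool/Agent/N9/AB/Triple.lean`.
-/

set_option autoImplicit false
set_option linter.all false

namespace Pool.Agent.Run7.h214.HP

open Finset

/-- the product with the exponents `x - y` -/
def qd (Q : Finset ℕ) (x y : ℕ → ℕ) : ℕ := ∏ p ∈ Q, p ^ (x p - y p)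

lemma qd_pos {Q : Finset ℕ} (hQ : ∀ p ∈ Q, p.Prime) (x y : ℕ → ℕ) : 0 < qd Q x y :=
  Finset.prod_pos fun p hp => pow_pos (hQ p hp).pos _

lemma qd_coprime {Q : Finset ℕ} (hQ : ∀ p ∈ Q, p.Prime) (x y : ℕ → ℕ) : Nat.Coprime (qd Q x y) (qd Q y x) := by
  apply Nat.Coprime.prod_left
  intro p hp
  apply Nat.Coprime.prod_right
  intro q hq
  by_cases h : p = q
  · subst h
    rcases le_total (x p) (y p) with h1 | h1
    · rw [Nat.sub_eq_zero_of_le h1, pow_zero]
      exact Nat.coprime_one_left _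
    · rw [Nat.sub_eq_zero_of_le h1, pow_zero]
      exact Nat.coprime_one_right _
  · exact Nat.Coprime.pow _ _ ((Nat.coprime_primes (hQ p hp) (hQ q hq)).mpr h)

lemma log_qd {Q : Finset ℕ} (hQ : ∀ p ∈ Q, p.Prime) (x y : ℕ → ℕ) :
    Real.log (qd Q x y) = ∑ p ∈ Q, ((x p - y p : ℕ) : ℝ) * Real.log p := by
  unfold qd
  push_cast
  rw [Real.log_prod (fun p hp => pow_ne_zero _ (by exact_mod_cast (hQ p hp).ne_zero))]
  apply Finset.sum_congr rfl
  intro p _
  rw [Real.log_pow]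

lemma dvd_qd {Q : Finset ℕ} {x y : ℕ → ℕ} {p : ℕ} (hp : p ∈ Q) (h : y p < x p) : p ∣ qd Q x y :=
  (dvd_pow_self p (by omega : x p - y p ≠ 0)).trans (Finset.dvd_prod_of_mem (fun p => p ^ (x p - y p)) hp)

lemma of_dvd_qd {Q : Finset ℕ} (hQ : ∀ p ∈ Q, p.Prime) {x y : ℕ → ℕ} {p : ℕ} (hp : p.Prime)
    (h : p ∣ qd Q x y) : p ∈ Q ∧ y p < x p := by
  obtain ⟨q, hq, hpq⟩ := (Prime.dvd_finsetProd_iff hp.prime _).mp h
  have h0 : x q - y q ≠ 0 := by
    intro h1
    rw [h1, pow_zero] at hpq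
    exact hp.one_lt.ne' (Nat.dvd_one.mp hpq)
  have h1 : p ∣ q := hp.dvd_of_dvd_pow hpq
  have h2 : p = q := (Nat.prime_dvd_prime_iff_eq hp (hQ q hq)).mp h1
  subst h2
  exact ⟨hq, by omega⟩

theorem core' {Q : Finset ℕ} {x y : ℕ → ℕ} {m r : ℕ} {B : ℝ}
    (hQ : ∀ p ∈ Q, p.Prime ∧ 3 ≤ p ∧ (p : ℝ) ≤ B) (hne : ∃ p ∈ Q, x p ≠ y p)
    (hr : ∑ p ∈ Q, (x p - y p) = r)
    (hlt : qd Q y x < qd Q x y) (hmod : qd Q y x ≡ qd Q x y [MOD 2 ^ m]) :
    ∃ a b c : ℕ, 0 < a ∧ 0 < b ∧ a + b = c ∧ Nat.Coprime a b ∧ 2 ^ m ≤ c ∧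
    Real.log c ≤ r * Real.log B ∧
    1 ≤ Real.log ((∏ p ∈ (a * b * c).primeFactors, p : ℕ) : ℝ) ∧
    ∃ G : ℝ, (∑ p ∈ Q with x p ≠ y p, Real.log p) ≤ G ∧
      3 / 2 * (∑ p ∈ Q with x p ≠ y p, Real.log p) - m * Real.log 2 ≤ G ∧
      (m - 1) * Real.log 2 - (∑ p ∈ Q with x p ≠ y p, Real.log p) +
          ((Q.filter fun p => x p ≠ y p).card : ℝ) * Real.log G ≤
        Real.log c - (Real.log ((∏ p ∈ (a * b * c).primeFactors, p : ℕ) : ℝ) -
          ((a * b * c).primeFactors.card : ℝ) *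
            Real.log (Real.log ((∏ p ∈ (a * b * c).primeFactors, p : ℕ) : ℝ))) := by
  classical
  have hQp : ∀ p ∈ Q, p.Prime := fun p hp => (hQ p hp).1
  have hlogpos : ∀ p ∈ Q, 0 ≤ Real.log (p : ℝ) := by
    intro p hp
    apply Real.log_nonneg
    have : 1 ≤ p := (hQp p hp).one_lt.le
    exact_mod_cast this
  obtain ⟨c, hc⟩ : ∃ c, c = qd Q x y := ⟨_, rfl⟩
  obtain ⟨b, hb⟩ : ∃ b, b = qd Q y x := ⟨_, rfl⟩
  rw [← hc, ← hb] at hlt hmod
  have hb0 : 0 < b := by rw [hb]; exact qd_pos hQp y x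
  have hc0 : 0 < c := by rw [hc]; exact qd_pos hQp x y
  have hbR : (0 : ℝ) < b := by exact_mod_cast hb0
  have hcR : (0 : ℝ) < c := by exact_mod_cast hc0
  have hcop : Nat.Coprime c b := by rw [hc, hb]; exact qd_coprime hQp x y
  obtain ⟨d, hd⟩ := (Nat.modEq_iff_dvd' hlt.le).mp hmod
  have hcb : 0 < c - b := by omega
  have hd0 : 0 < d := by
    rcases Nat.eq_zero_or_pos d with h | h
    · rw [h, mul_zero] at hd
      omega
    · exact h
  have hdR : (0 : ℝ) < d := by exact_mod_cast hd0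
  have h2m : 2 ^ m * d ≤ c := by omega
  have h2mc : 2 ^ m ≤ c := le_trans (Nat.le_mul_of_pos_right _ hd0) h2m
  obtain ⟨U, hU⟩ : ∃ U, U = Q.filter fun p => x p ≠ y p := ⟨_, rfl⟩
  obtain ⟨L, hL⟩ : ∃ L : ℝ, L = ∑ p ∈ U, Real.log p := ⟨_, rfl⟩
  rw [← hU, ← hL]
  have hUQ : ∀ p ∈ U, p ∈ Q ∧ x p ≠ y p := by
    intro p hp
    rw [hU, Finset.mem_filter] at hp
    exact hp
  have hlc : Real.log c = ∑ p ∈ Q, ((x p - y p : ℕ) : ℝ) * Real.log p := by rw [hc]; exact log_qd hQp x y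
  have hlb : Real.log b = ∑ p ∈ Q, ((y p - x p : ℕ) : ℝ) * Real.log p := by rw [hb]; exact log_qd hQp y x
  have hLbc : L ≤ Real.log c + Real.log b := by
    rw [hlc, hlb, ← Finset.sum_add_distrib, hL]
    calc ∑ p ∈ U, Real.log p ≤ ∑ p ∈ U, (((x p - y p : ℕ) : ℝ) * Real.log p + ((y p - x p : ℕ) : ℝ) * Real.log p) := by
          apply Finset.sum_le_sum
          intro p hp
          obtain ⟨h1, h2⟩ := hUQ p hp
          have h3 : (1 : ℝ) ≤ ((x p - y p : ℕ) : ℝ) + ((y p - x p : ℕ) : ℝ) := by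
            have : 1 ≤ (x p - y p) + (y p - x p) := by omega
            exact_mod_cast this
          have h4 := hlogpos p h1
          nlinarith
      _ ≤ _ := by
          apply Finset.sum_le_sum_of_subset_of_nonneg
          · rw [hU]; exact Finset.filter_subset _ _
          · intro p hp _
            have h4 := hlogpos p hp
            positivity
  have hUu : (U.card : ℝ) ≤ L := by
    rw [hL]
    exact Pool.Agent.N9.AB.card_le_sum_log fun p hp => ⟨hQp p (hUQ p hp).1, (hQ p (hUQ p hp).1).2.1⟩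
  have hUne : U.Nonempty := by
    obtain ⟨p, hp, h⟩ := hne
    exact ⟨p, by rw [hU, Finset.mem_filter]; exact ⟨hp, h⟩⟩
  have huR : (1 : ℝ) ≤ U.card := by exact_mod_cast Finset.card_pos.mpr hUne
  have hlogbc : Real.log b ≤ Real.log c := Real.log_le_log hbR (by exact_mod_cast hlt.le)
  have hlog2 : 0 < Real.log 2 := Real.log_pos (by norm_num)
  have hlogc : (m : ℝ) * Real.log 2 ≤ Real.log c := by
    rw [← Real.log_pow]
    exact Real.log_le_log (by positivity) (by exact_mod_cast h2mc)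
  have hlogd : Real.log d ≤ Real.log c - m * Real.log 2 := by
    have h1 : ((2 : ℝ) ^ m * d) ≤ c := by exact_mod_cast h2m
    have h2 := Real.log_le_log (by positivity) h1
    rw [Real.log_mul (by positivity) hdR.ne', Real.log_pow] at h2
    linarith
  have hlcB : Real.log c ≤ r * Real.log B := by
    rw [hlc, ← hr]
    push_cast
    rw [Finset.sum_mul]
    apply Finset.sum_le_sum
    intro p hp
    have h1 : Real.log p ≤ Real.log B :=
      Real.log_le_log (by exact_mod_cast (hQp p hp).pos) (hQ p hp).2.2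
    gcongr
  obtain ⟨PU, hPU⟩ : ∃ PU : ℕ, PU = ∏ p ∈ U, p := ⟨_, rfl⟩
  have hPU0 : 0 < PU := by
    rw [hPU]
    exact Finset.prod_pos fun p hp => (hQp p (hUQ p hp).1).pos
  have hPUR : (0 : ℝ) < PU := by exact_mod_cast hPU0
  have hlogPU : Real.log PU = L := by
    rw [hPU, hL]
    push_cast
    rw [Real.log_prod (fun p hp => by exact_mod_cast (hQp p (hUQ p hp).1).ne_zero)]
  obtain ⟨n, hn⟩ : ∃ n, n = (c - b) * b * c := ⟨_, rfl⟩
  have hn0 : n ≠ 0 := by
    rw [hn]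
    positivity
  have hUn : U ⊆ n.primeFactors := by
    intro p hp
    obtain ⟨h1, h2⟩ := hUQ p hp
    rw [Nat.mem_primeFactors]
    refine ⟨hQp p h1, ?_, hn0⟩
    rw [hn]
    rcases lt_or_gt_of_ne h2 with h | h
    · have : p ∣ b := by rw [hb]; exact dvd_qd h1 h
      exact Dvd.dvd.mul_right (Dvd.dvd.mul_left this _) _
    · have : p ∣ c := by rw [hc]; exact dvd_qd h1 h
      exact Dvd.dvd.mul_left this _
  have hω : (U.card : ℝ) ≤ (n.primeFactors.card : ℝ) := by exact_mod_cast Finset.card_le_card hUn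
  have hr0 : 0 < ∏ p ∈ n.primeFactors, p :=
    Finset.prod_pos fun p hp => (Nat.prime_of_mem_primeFactors hp).pos
  have hrlow : PU ≤ ∏ p ∈ n.primeFactors, p := by
    have h1 : ∏ p ∈ U, p ∣ ∏ p ∈ n.primeFactors, p :=
      Finset.prod_dvd_prod_of_subset _ _ _ hUn
    rw [← hPU] at h1
    exact Nat.le_of_dvd hr0 h1
  have hrup : ∏ p ∈ n.primeFactors, p ≤ 2 * d * PU := by
    have hne' : 2 * d * PU ≠ 0 := by positivity
    have hPUd : ∀ p, p.Prime → (p ∣ b ∨ p ∣ c) → p ∣ PU := by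
      intro p hpp h
      have hpU : p ∈ U := by
        rw [hU, Finset.mem_filter]
        rcases h with h | h
        · rw [hb] at h
          obtain ⟨h1, h2⟩ := of_dvd_qd hQp hpp h
          exact ⟨h1, by omega⟩
        · rw [hc] at h
          obtain ⟨h1, h2⟩ := of_dvd_qd hQp hpp h
          exact ⟨h1, by omega⟩
      rw [hPU]
      exact Finset.dvd_prod_of_mem (fun p => p) hpU
    have h1 : n.primeFactors ⊆ (2 * d * PU).primeFactors := by
      intro p hp
      rw [Nat.mem_primeFactors] at hp ⊢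
      obtain ⟨hpp, hpn, _⟩ := hp
      refine ⟨hpp, ?_, hne'⟩
      rw [hn, hd] at hpn
      rcases (Nat.Prime.dvd_mul hpp).mp hpn with h | h
      · rcases (Nat.Prime.dvd_mul hpp).mp h with h | h
        · rcases (Nat.Prime.dvd_mul hpp).mp h with h | h
          · have h2 : p ∣ 2 := hpp.dvd_of_dvd_pow h
            exact Dvd.dvd.mul_right (Dvd.dvd.mul_right h2 _) _
          · exact Dvd.dvd.mul_right (Dvd.dvd.mul_left h _) _
        · exact Dvd.dvd.mul_left (hPUd p hpp (Or.inl h)) _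
      · exact Dvd.dvd.mul_left (hPUd p hpp (Or.inr h)) _
    have h2 : ∏ p ∈ n.primeFactors, p ∣ 2 * d * PU :=
      (Finset.prod_dvd_prod_of_subset _ _ _ h1).trans (Nat.prod_primeFactors_dvd _)
    exact Nat.le_of_dvd (Nat.pos_of_ne_zero hne') h2
  obtain ⟨R, hR⟩ : ∃ R : ℕ, R = ∏ p ∈ n.primeFactors, p := ⟨_, rfl⟩
  rw [← hR] at hr0 hrlow hrup
  have hRR : (0 : ℝ) < R := by exact_mod_cast hr0
  obtain ⟨g, hg⟩ : ∃ g : ℝ, g = Real.log (R : ℝ) := ⟨_, rfl⟩
  have hglow : L ≤ g := by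
    have h1 : ((PU : ℕ) : ℝ) ≤ R := by exact_mod_cast hrlow
    have h2 := Real.log_le_log hPUR h1
    rw [hlogPU] at h2
    rw [hg]
    exact h2
  have hgup : g ≤ L + Real.log c - (m - 1) * Real.log 2 := by
    have h1 : (R : ℝ) ≤ ((2 * d * PU : ℕ) : ℝ) := by exact_mod_cast hrup
    have h2 := Real.log_le_log hRR h1
    push_cast at h2
    rw [Real.log_mul (by positivity) hPUR.ne', Real.log_mul (by norm_num) hdR.ne', hlogPU] at h2
    rw [hg]
    linarith
  have hg1 : 1 ≤ g := by linarith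
  refine ⟨c - b, b, c, hcb, hb0, by omega, ?_, h2mc, hlcB, ?_, L + Real.log c - (m - 1) * Real.log 2,
    ?_, ?_, ?_⟩
  · rw [Nat.coprime_sub_self_left hlt.le]
    exact hcop
  · rw [← hn, ← hR, ← hg]
    exact hg1
  · linarith
  · linarith
  · rw [← hn, ← hR, ← hg]
    have hlogg : 0 ≤ Real.log g := Real.log_nonneg hg1
    have h5 : (U.card : ℝ) * Real.log g ≤ (n.primeFactors.card : ℝ) * Real.log g := by gcongr
    have h6 := Pool.Agent.N9.AB.decr (k := (U.card : ℝ)) (g := g)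
      (G := L + Real.log c - (m - 1) * Real.log 2) (by positivity) (by linarith) (by linarith) hgup
    linarith

theorem t_TRI : S_TRI := by
  classical
  intro Q x y m B hQ hne hsum hmod
  have hQp : ∀ p ∈ Q, p.Prime := fun p hp => (hQ p hp).1
  have hs : ∑ p ∈ Q, (x p - y p) = ∑ p ∈ Q, (y p - x p) := by
    have h1 : ∑ p ∈ Q, x p + ∑ p ∈ Q, (y p - x p) = ∑ p ∈ Q, y p + ∑ p ∈ Q, (x p - y p) := by
      rw [← Finset.sum_add_distrib, ← Finset.sum_add_distrib]
      apply Finset.sum_congr rfl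
      intro p _
      omega
    omega
  obtain ⟨r, hr⟩ : ∃ r, r = ∑ p ∈ Q, (x p - y p) := ⟨_, rfl⟩
  have hr1 : 1 ≤ r := by
    by_contra hcon
    have h0 : r = 0 := by omega
    obtain ⟨p, hp, hpne⟩ := hne
    have h1 : ∑ p ∈ Q, (x p - y p) = 0 := by rw [← hr]; exact h0
    have h2 : ∑ p ∈ Q, (y p - x p) = 0 := by rw [← hs]; exact h1
    rw [Finset.sum_eq_zero_iff] at h1 h2
    have h3 := h1 p hp
    have h4 := h2 p hp
    omega
  have h2r : 2 * r = ∑ p ∈ Q, ((x p - y p) + (y p - x p)) := by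
    rw [Finset.sum_add_distrib, ← hs, ← hr]; ring
  -- the congruence
  have hmod2 : qd Q x y ≡ qd Q y x [MOD 2 ^ m] := by
    have hf : ∀ u v : ℕ → ℕ, ∏ p ∈ Q, p ^ u p = (∏ p ∈ Q, p ^ min (u p) (v p)) * qd Q u v := by
      intro u v
      unfold qd
      rw [← Finset.prod_mul_distrib]
      apply Finset.prod_congr rfl
      intro p _
      rw [← pow_add]
      congr 1
      omega
    have h1 := hf x y
    have h2 := hf y x
    have h3 : ∏ p ∈ Q, p ^ min (y p) (x p) = ∏ p ∈ Q, p ^ min (x p) (y p) := by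
      apply Finset.prod_congr rfl
      intro p _
      rw [min_comm]
    rw [h3] at h2
    rw [h1, h2] at hmod
    refine Nat.ModEq.cancel_left_of_coprime ?_ hmod
    apply Nat.Coprime.pow_left
    apply Nat.Coprime.prod_right
    intro p hp
    apply Nat.Coprime.pow_right
    rw [Nat.coprime_primes Nat.prime_two (hQp p hp)]
    have := (hQ p hp).2.1
    omega
  rcases lt_trichotomy (qd Q y x) (qd Q x y) with h | h | h
  · obtain ⟨a, b, c, hh⟩ := core' hQ hne hr.symm h hmod2.symm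
    exact ⟨r, a, b, c, hr1, h2r, hh⟩
  · exfalso
    have hcop := qd_coprime hQp x y
    rw [h] at hcop
    have h1 : qd Q x y = 1 := (Nat.coprime_self _).mp hcop
    obtain ⟨p, hp, hpne⟩ := hne
    have h2 : p ∣ 1 := by
      rcases lt_or_gt_of_ne hpne with h3 | h3
      · have := dvd_qd (x := y) (y := x) hp h3
        rwa [h, h1] at this
      · have := dvd_qd (x := x) (y := y) hp h3
        rwa [h1] at this
    exact (hQp p hp).one_lt.ne' (Nat.dvd_one.mp h2)
  · have hne' : ∃ p ∈ Q, y p ≠ x p := by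
      obtain ⟨p, hp, hpne⟩ := hne
      exact ⟨p, hp, hpne.symm⟩
    obtain ⟨a, b, c, hh⟩ := core' hQ hne' (hs.symm.trans hr.symm) h hmod2
    have hf : (Q.filter fun p => y p ≠ x p) = Q.filter fun p => x p ≠ y p := by
      apply Finset.filter_congr
      intro p _
      exact ne_comm
    rw [hf] at hh
    exact ⟨r, a, b, c, hr1, h2r, hh⟩

end Pool.Agent.Run7.h214.HP
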