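import Pool.Agent.Run7.h214.HP.Ev

/-! The assembly. -/

set_option autoImplicit false

namespace Pool.Agent.Run7.h214.HP

open Finset Filter Topology

/-- `x log x ≥ -3/8` -/
theorem mul_log_ge' {x : ℝ} (hx : 0 < x) : -(3 / 8) ≤ x * Real.log x := by
  have h1 : 1 - (x / (3 / 8))⁻¹ ≤ Real.log (x / (3 / 8)) :=
    Real.one_sub_inv_le_log_of_pos (by positivity)
  rw [Real.log_div hx.ne' (by norm_num)] at h1
  have h2 : -1 ≤ Real.log (3 / 8 : ℝ) := by
    rw [Real.le_log_iff_exp_le (by norm_num), Real.exp_neg, inv_le_comm₀ (Real.exp_pos _)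
      (by norm_num)]
    have := Real.exp_one_gt_d9
    norm_num at this ⊢
    linarith
  have h3 : x * (1 - (x / (3 / 8))⁻¹) = x - 3 / 8 := by
    field_simp
  have h4 := mul_le_mul_of_nonneg_left h1 hx.le
  rw [h3] at h4
  nlinarith

/-- `w (log w - c) ≥ - exp (c - 1)` -/
lemma tangent {w : ℝ} (c : ℝ) (hw : 0 < w) : -Real.exp (c - 1) ≤ w * (Real.log w - c) := by
  have h0 := Real.exp_pos (c - 1)
  have h1 := Real.one_sub_inv_le_log_of_pos (show 0 < w / Real.exp (c - 1) by positivity)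
  rw [Real.log_div hw.ne' h0.ne', Real.log_exp] at h1
  have h2 := mul_le_mul_of_nonneg_left h1 hw.le
  have h3 : w * (1 - (w / Real.exp (c - 1))⁻¹) = w - Real.exp (c - 1) := by
    field_simp
  rw [h3] at h2
  linarith

lemma exp_bounds : Real.exp (aa - 1) / (3 / 2) ≤ 21 / 10 ∧ 142 / 100 ≤ Real.exp (aa - 1) / (3 / 2) := by
  have ha : aa - 1 = 113 / 100 := by unfold aa; norm_num
  rw [ha]
  constructor
  · have h1 : Real.exp (113 / 100 : ℝ) = Real.exp 1 * Real.exp (13 / 100) := by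
      rw [← Real.exp_add]; norm_num
    have h2 := Real.exp_one_lt_d9
    have h3 : Real.exp (13 / 100 : ℝ) ≤ 115 / 100 := by
      have h4 := Real.add_one_le_exp (-(13 / 100) : ℝ)
      rw [Real.exp_neg] at h4
      have h5 := Real.exp_pos (13 / 100 : ℝ)
      have h6 : (87 / 100 : ℝ) ≤ (Real.exp (13 / 100))⁻¹ := by linarith
      have h7 := (le_inv_comm₀ (by norm_num) h5).mp h6
      linarith [show ((87 / 100 : ℝ))⁻¹ ≤ 115 / 100 by norm_num]
    rw [h1]
    have h4 := Real.exp_pos (13 / 100 : ℝ)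
    have h5 := Real.exp_pos (1 : ℝ)
    have h6 : Real.exp 1 * Real.exp (13 / 100) ≤ 2.7182818286 * (115 / 100) := by gcongr
    linarith
  · have h1 := Real.add_one_le_exp (113 / 100 : ℝ)
    linarith

/-- the final inequality -/
lemma ineq {Y u Ls G r m Hs Es n : ℝ} (hY : 0 < Y) (hlY : 2000000 ≤ Real.log Y) (hu : 1 ≤ u)
    (h1 : Hs - 1 / 28800 * n - Real.log (2 * n + 1) - 2 * Real.log 2 ≤ (m - 1) * Real.log 2)
    (h2 : (Real.exp (aa - 1) / (3 / 2) + 1 / 200) * (Y / Real.log Y) ≤ Hs - Es)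
    (h3 : n ≤ 36 * (Y / Real.log Y))
    (h4 : Real.log (2 * n + 1) + 2 * Real.log 2 ≤ 1 / 800 * (Y / Real.log Y))
    (h5 : Ls - u * Real.log Y + aa * (2 * r - u) ≤ Es + 1 / 28800 * n)
    (h6 : u * (Real.log Y - 5) ≤ Ls) (h7 : m * Real.log 2 ≤ 2 * n)
    (h8 : Ls ≤ G) (h9 : 3 / 2 * Ls - m * Real.log 2 ≤ G) :
    426 / 100 * r ≤ (m - 1) * Real.log 2 - Ls + u * Real.log G := by
  have ha : aa = 213 / 100 := rfl
  have hl : 0 < Real.log Y := by linarith
  set N := Y / Real.log Y with hN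
  have hN0 : 0 < N := by positivity
  obtain ⟨b1, b2⟩ := exp_bounds
  have hYN : Y / N = Real.log Y := by rw [hN]; field_simp
  set E := Real.exp (aa - 1) / (3 / 2) with hE
  suffices hmain : -(E + 1 / 800) * N ≤ u * (Real.log G - Real.log Y - aa) by
    rw [ha] at h5 hmain
    linarith
  rcases le_or_gt u (N / 10) with hc | hc
  · -- small
    have e1 : u * Real.log Y / 2 ≤ G := by nlinarith
    have e2 : Real.log (u * Real.log Y / 2) ≤ Real.log G := Real.log_le_log (by positivity) e1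
    have e3 : Real.log (u * Real.log Y / 2) = Real.log (u / (2 * N)) + Real.log Y := by
      rw [← Real.log_mul (by positivity) (by positivity), ← hYN]
      congr 1
      field_simp
    have e4 := mul_log_ge' (x := u / (2 * N)) (by positivity)
    have e5 : u * (Real.log (u / (2 * N)) - aa) ≤ u * (Real.log G - Real.log Y - aa) := by
      apply mul_le_mul_of_nonneg_left _ (by linarith)
      linarith
    have e6 : u * (Real.log (u / (2 * N)) - aa) =
        2 * N * (u / (2 * N) * Real.log (u / (2 * N))) - aa * u := by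
      field_simp
    have e7 : 2 * N * (-(3 / 8)) ≤ 2 * N * (u / (2 * N) * Real.log (u / (2 * N))) :=
      mul_le_mul_of_nonneg_left e4 (by positivity)
    have e8 : 142 / 100 * N ≤ E * N := by gcongr
    rw [ha] at e5 e6
    rw [ha]
    linarith
  · -- large
    have e0 : u * (3 / 2 * Real.log Y - 15 / 2 - 720) ≤ G := by nlinarith
    have e1 : 3 / 2 * (u * Real.log Y) * (3999 / 4000) ≤ G := by nlinarith
    have e2 := Real.log_le_log (by positivity) e1
    rw [Real.log_mul (by positivity) (by norm_num)] at e2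
    have e3 : Real.log (3 / 2 * (u * Real.log Y)) = Real.log (3 / 2 * u / N) + Real.log Y := by
      rw [← Real.log_mul (by positivity) (by positivity), ← hYN]
      congr 1
      field_simp
    have e4 := Real.one_sub_inv_le_log_of_pos (show (0 : ℝ) < 3999 / 4000 by norm_num)
    have e5 : u * (Real.log (3 / 2 * u / N) - (aa + 1 / 3999)) ≤
        u * (Real.log G - Real.log Y - aa) := by
      apply mul_le_mul_of_nonneg_left _ (by linarith)
      norm_num at e4
      linarith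
    have e6 := tangent (aa + 1 / 3999) (show 0 < 3 / 2 * u / N by positivity)
    have e7 : u * (Real.log (3 / 2 * u / N) - (aa + 1 / 3999)) =
        N / (3 / 2) * (3 / 2 * u / N * (Real.log (3 / 2 * u / N) - (aa + 1 / 3999))) := by
      field_simp
    have e8 : N / (3 / 2) * (-Real.exp (aa + 1 / 3999 - 1)) ≤
        N / (3 / 2) * (3 / 2 * u / N * (Real.log (3 / 2 * u / N) - (aa + 1 / 3999))) :=
      mul_le_mul_of_nonneg_left e6 (by positivity)
    have e9 : Real.exp (aa + 1 / 3999 - 1) ≤ Real.exp (aa - 1) * (1 + 1 / 3998) := by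
      have e10 : aa + 1 / 3999 - 1 = aa - 1 + 1 / 3999 := by ring
      rw [e10, Real.exp_add]
      apply mul_le_mul_of_nonneg_left _ (Real.exp_pos _).le
      have h4 := Real.add_one_le_exp (-(1 / 3999) : ℝ)
      rw [Real.exp_neg] at h4
      have h5 := Real.exp_pos (1 / 3999 : ℝ)
      have h6 : (3998 / 3999 : ℝ) ≤ (Real.exp (1 / 3999))⁻¹ := by linarith
      have h7 := (le_inv_comm₀ (by norm_num) h5).mp h6
      linarith [show ((3998 / 3999 : ℝ))⁻¹ ≤ 1 + 1 / 3998 by norm_num]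
    have e11 : N / (3 / 2) * Real.exp (aa + 1 / 3999 - 1) ≤ (E + 1 / 800) * N := by
      have h1 : N / (3 / 2) * Real.exp (aa + 1 / 3999 - 1) ≤
          N / (3 / 2) * (Real.exp (aa - 1) * (1 + 1 / 3998)) := by gcongr
      have h2 : N / (3 / 2) * (Real.exp (aa - 1) * (1 + 1 / 3998)) = E * N + E * N / 3998 := by
        rw [hE]; ring
      have h3 : E * N ≤ 21 / 10 * N := by gcongr
      linarith
    linarith

lemma entropy_le (s : ℝ) : ∑ a, Real.negMulLog (dis s a) ≤ 2 := by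
  have h1 : ∀ a, Real.negMulLog (dis s a) ≤ 1 - dis s a := by
    intro a
    rcases dis_or s a with h | h
    · rw [h]; simp
    · have h0 : 0 < dis s a := lt_of_lt_of_le (Real.exp_pos _) h
      have h2 := Real.one_sub_inv_le_log_of_pos h0
      have h3 := mul_le_mul_of_nonneg_left h2 h0.le
      rw [Real.negMulLog]
      have h4 : dis s a * (1 - (dis s a)⁻¹) = dis s a - 1 := by field_simp
      rw [h4] at h3
      linarith
  calc ∑ a, Real.negMulLog (dis s a) ≤ ∑ a, (1 - dis s a) := sum_le_sum fun a _ => h1 a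
    _ = 2 := by rw [sum_sub_distrib, dis_sum]; simp; norm_num

theorem source (hP : S_PAIR) (hT : S_TRI) (hL : S_LOG) (hC : S_CONST) : Source := by
  intro δ hδ D
  obtain ⟨n0, hn0⟩ := hP 7 (1 / 28800) (by norm_num) (by norm_num)
  obtain ⟨Y, k1, k2, k3, k4, k5, k6, k7, k8⟩ := params hL hC n0 hδ D
  have hY : 0 < Y := by linarith
  have hl : 0 < Real.log Y := by linarith
  have hNpos : 0 < Y / Real.log Y := by positivity
  have hmem : ∀ p ∈ QQ Y, p.Prime ∧ 1 / 100 < (p : ℝ) / Y ∧ (p : ℝ) / Y ≤ 35 := by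
    intro p hp
    exact (mem_block hY (by norm_num) (by norm_num)).mp hp
  set Q := QQ Y with hQ
  set n : ℕ := Q.card with hn
  have hcard : Fintype.card {p // p ∈ Q} = n := Fintype.card_coe Q
  set Hs : ℝ := ∑ p : {p // p ∈ Q}, ∑ a, Real.negMulLog (dis (((p : ℕ) : ℝ) / Y) a) with hHs
  set Es : ℝ := ∑ p : {p // p ∈ Q}, ∑ l, ∑ a, ∑ b, dis (((p : ℕ) : ℝ) / Y) a *
    dis (((p : ℕ) : ℝ) / Y) b * (ff (((p : ℕ) : ℝ) / Y) l a - ff (((p : ℕ) : ℝ) / Y) l b) ^ 2 with hEs
  have hFF : Hs - Es = ∑ p ∈ Q, FF ((p : ℝ) / Y) := by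
    rw [hHs, hEs, ← sum_sub_distrib, ← Finset.sum_coe_sort Q (fun p => FF ((p : ℝ) / Y))]
    rfl
  have hEs0 : 0 ≤ Es := by
    refine sum_nonneg fun p _ => sum_nonneg fun l _ => sum_nonneg fun a _ => sum_nonneg fun b _ => ?_
    have hd : ∀ a, 0 ≤ dis (((p : ℕ) : ℝ) / Y) a := by
      intro a
      rcases dis_or (((p : ℕ) : ℝ) / Y) a with h | h
      · rw [h]
      · exact (Real.exp_pos _).le.trans h
    have := hd a
    have := hd b
    positivity
  have hHs2 : Hs ≤ 2 * n := by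
    calc Hs ≤ ∑ _p : {p // p ∈ Q}, (2 : ℝ) := sum_le_sum fun p _ => entropy_le _
      _ = 2 * n := by rw [sum_const, card_univ, hcard, nsmul_eq_mul]; ring
  obtain ⟨b1, b2⟩ := exp_bounds
  have hl2 : 0 < Real.log 2 := Real.log_pos (by norm_num)
  have hlog2n : 0 ≤ Real.log (2 * (n : ℝ) + 1) := Real.log_nonneg (by
    have : (0 : ℝ) ≤ n := by positivity
    linarith)
  have hnR : (0 : ℝ) ≤ n := by positivity
  -- the modulus
  set T : ℝ := Hs - 1 / 28800 * n - Real.log (2 * n + 1) with hTdef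
  have hT1 : 14 / 10 * (Y / Real.log Y) + Real.log 2 ≤ T := by
    have : (142 / 100 : ℝ) * (Y / Real.log Y) ≤ Real.exp (aa - 1) / (3 / 2) * (Y / Real.log Y) := by
      gcongr
    nlinarith
  set m : ℕ := ⌊T / Real.log 2⌋₊ with hm
  have hT0 : 0 ≤ T / Real.log 2 := by
    apply div_nonneg _ hl2.le
    nlinarith
  have hm1 : (m : ℝ) * Real.log 2 ≤ T := by
    have := Nat.floor_le hT0
    rwa [← hm, le_div_iff₀ hl2] at this
  have hm2 : T ≤ ((m : ℝ) + 1) * Real.log 2 := by
    have := (Nat.lt_floor_add_one (T / Real.log 2)).le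
    rwa [← hm, div_le_iff₀ hl2] at this
  have hmN : Y / Real.log Y ≤ m * Real.log 2 := by nlinarith
  -- the classes
  have hsumlt : ∀ x : {p // p ∈ Q} → Fin 3, ∑ p : {p // p ∈ Q}, (x p : ℕ) < 2 * n + 1 := by
    intro x
    have h1 : ∑ p : {p // p ∈ Q}, (x p : ℕ) ≤ ∑ _p : {p // p ∈ Q}, 2 :=
      sum_le_sum fun p _ => Nat.le_of_lt_succ (x p).2
    rw [sum_const, card_univ, hcard, smul_eq_mul] at h1
    omega
  obtain ⟨x, y, hne, hcl, hpos, hsum⟩ := hn0 {p // p ∈ Q} (Fin 3) (Fin 2)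
    (Fin (2 ^ m) × Fin (2 * n + 1)) (fun p => dis (((p : ℕ) : ℝ) / Y))
    (fun p => ff (((p : ℕ) : ℝ) / Y))
    (fun x => (⟨(∏ p : {p // p ∈ Q}, (p : ℕ) ^ (x p : ℕ)) % 2 ^ m, Nat.mod_lt _ (by positivity)⟩,
      ⟨∑ p : {p // p ∈ Q}, (x p : ℕ), hsumlt x⟩)) (by rw [hcard]; exact k4)
    (fun p a => dis_or _ a) (fun p => dis_sum _)
    (fun p a => by
      obtain ⟨h1, h2, h3⟩ := hmem p p.2
      exact ff_bound (by linarith) h3 a)
    (by
      rw [Fintype.card_prod, Fintype.card_fin, Fintype.card_fin, hcard]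
      push_cast
      rw [Real.log_mul (by positivity) (by positivity), Real.log_pow]
      linarith)
  rw [Prod.mk.injEq, Fin.mk.injEq, Fin.mk.injEq] at hcl
  obtain ⟨hmod, hsums⟩ := hcl
  -- functions on `ℕ`
  set X : ℕ → ℕ := fun p => if h : p ∈ Q then (x ⟨p, h⟩ : ℕ) else 0 with hX
  set W : ℕ → ℕ := fun p => if h : p ∈ Q then (y ⟨p, h⟩ : ℕ) else 0 with hW
  have hXx : ∀ p : {p // p ∈ Q}, X p = x p := fun p => by simp [hX]
  have hWy : ∀ p : {p // p ∈ Q}, W p = y p := fun p => by simp [hW]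
  obtain ⟨r, a, b, c, hr1, hr2, ha0, hb0, habc, hcop, h2m, hlogc, hg1, G, hG1, hG2, hest⟩ :=
    hT Q X W m (35 * Y) (by
      intro p hp
      obtain ⟨h1, h2, h3⟩ := hmem p hp
      rw [lt_div_iff₀ hY] at h2
      rw [div_le_iff₀ hY] at h3
      refine ⟨h1, ?_, h3⟩
      have : (3 : ℝ) ≤ p := by linarith
      exact_mod_cast this) (by
      by_contra hcon
      push Not at hcon
      apply hne
      funext p
      have h1 := hcon p p.2
      rw [hXx, hWy] at h1
      exact Fin.ext h1) (by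
      rw [← Finset.sum_coe_sort Q X, ← Finset.sum_coe_sort Q W]
      simp only [hXx, hWy]
      exact hsums) (by
      rw [← Finset.prod_coe_sort Q (fun p => p ^ X p), ← Finset.prod_coe_sort Q (fun p => p ^ W p)]
      simp only [hXx, hWy]
      exact hmod)
  set U := Q.filter fun p => X p ≠ W p with hU
  set Ls : ℝ := ∑ p ∈ U, Real.log p with hLs
  have hUne : 1 ≤ U.card := by
    rw [Nat.one_le_iff_ne_zero, Finset.card_ne_zero]
    by_contra hcon
    rw [Finset.not_nonempty_iff_eq_empty, hU, Finset.filter_eq_empty_iff] at hcon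
    apply hne
    funext p
    have h1 := hcon p.2
    rw [not_not, hXx, hWy] at h1
    exact Fin.ext h1
  have hu1 : (1 : ℝ) ≤ (U.card : ℝ) := by exact_mod_cast hUne
  -- the sum of the costs
  have hr3 : 2 * (r : ℝ) = ∑ p ∈ U, (((X p - W p + (W p - X p) : ℕ)) : ℝ) := by
    have h1 : ((2 * r : ℕ) : ℝ) = ((∑ p ∈ Q, (X p - W p + (W p - X p)) : ℕ) : ℝ) := by rw [hr2]
    push_cast at h1
    rw [h1, hU, sum_filter]
    push_cast
    refine sum_congr rfl fun p _ => ?_
    split_ifs with h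
    · rfl
    · rw [not_not] at h
      simp [h]
  have hcost : Ls - U.card * Real.log Y + aa * (2 * r - U.card) ≤ Es + 1 / 28800 * n := by
    have h1 : ∑ p ∈ U, (Real.log ((p : ℝ) / Y) + aa * ((((X p - W p + (W p - X p) : ℕ)) : ℝ) - 1)) ≤
        ∑ p : {p // p ∈ Q}, ∑ l, (ff (((p : ℕ) : ℝ) / Y) l (x p) - ff (((p : ℕ) : ℝ) / Y) l (y p)) ^ 2 := by
      rw [hU, sum_filter, ← Finset.sum_coe_sort Q]
      refine sum_le_sum fun p _ => ?_
      split_ifs with h
      · rw [hXx, hWy] at h ⊢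
        exact maj (by have := (hmem p p.2).2.1; linarith) (x p) (y p) (hpos p).1 (hpos p).2
          (fun h2 => h (by rw [h2]))
      · exact sum_nonneg fun l _ => sq_nonneg _
    have h2 : ∑ p ∈ U, (Real.log ((p : ℝ) / Y) + aa * ((((X p - W p + (W p - X p) : ℕ)) : ℝ) - 1)) =
        Ls - U.card * Real.log Y + aa * (2 * r - U.card) := by
      rw [sum_add_distrib, ← mul_sum, sum_sub_distrib, ← hr3, sum_const, nsmul_eq_mul, mul_one]
      congr 1
      rw [hLs, eq_sub_iff_add_eq, ← nsmul_eq_mul, ← sum_const, ← sum_add_distrib]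
      refine sum_congr rfl fun p hp => ?_
      have hpp : (p : ℝ) ≠ 0 := by
        have := (hmem p (mem_filter.mp hp).1).1.ne_zero
        exact_mod_cast this
      rw [Real.log_div hpp hY.ne']
      ring
    rw [hcard] at hsum
    linarith
  have hLs5 : (U.card : ℝ) * (Real.log Y - 5) ≤ Ls := by
    rw [hLs, ← nsmul_eq_mul, ← sum_const]
    refine sum_le_sum fun p hp => ?_
    obtain ⟨h1, h2, h3⟩ := hmem p (mem_filter.mp hp).1
    rw [lt_div_iff₀ hY] at h2
    have h4 := Real.log_le_log (by positivity) h2.le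
    rw [Real.log_mul (by norm_num) hY.ne'] at h4
    have h5 : -5 ≤ Real.log (1 / 100 : ℝ) := by
      rw [Real.le_log_iff_exp_le (by norm_num), Real.exp_neg, one_div]
      apply inv_anti₀ (by norm_num)
      have h6 : (2.7 : ℝ) ≤ Real.exp 1 := by have := Real.exp_one_gt_d9; linarith
      have h7 : Real.exp 5 = Real.exp 1 ^ 5 := by rw [← Real.exp_nat_mul]; norm_num
      rw [h7]
      calc (100 : ℝ) ≤ 2.7 ^ 5 := by norm_num
        _ ≤ Real.exp 1 ^ 5 := by gcongr
    linarith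
  have hfin := ineq (Y := Y) (u := U.card) (Ls := Ls) (G := G) (r := r) (m := m) (Hs := Hs)
    (Es := Es) (n := n) hY k8 hu1 (by nlinarith) (by rw [hFF]; exact k2) k3 k5 hcost hLs5
    (by nlinarith) hG1 hG2
  refine ⟨r, m, a, b, c, 35 * Y, hr1, ha0, hb0, habc, hcop, h2m, ?_, hlogc, ?_, by linarith, hg1,
    hfin.trans hest⟩
  · rw [Real.log_mul (by norm_num) hY.ne']
    have : 0 < Real.log 35 := Real.log_pos (by norm_num)
    linarith
  · exact k7.trans (Real.log_le_log hNpos hmN)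

end Pool.Agent.Run7.h214.HP
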