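import Pool.Agent.Run7.h214.HP.Ker

/-! The sums over the primes. -/

set_option autoImplicit false

namespace Pool.Agent.Run7.h214.HP

open Finset Filter Topology

/-- the primes up to `s Y` -/
noncomputable def PP (Y s : ℝ) : Finset ℕ := Nat.primesLE ⌊s * Y⌋₊

/-- the primes used -/
noncomputable def QQ (Y : ℝ) : Finset ℕ := PP Y 35 \ PP Y (1 / 100)

lemma mem_PP {Y s : ℝ} (hY : 0 < Y) (hs : 0 < s) {p : ℕ} :
    p ∈ PP Y s ↔ p.Prime ∧ (p : ℝ) / Y ≤ s := by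
  rw [PP, Nat.mem_primesLE, Nat.le_floor_iff (by positivity), div_le_iff₀ hY]
  tauto

lemma PP_mono {Y s s' : ℝ} (hY : 0 < Y) (h : s ≤ s') : PP Y s ⊆ PP Y s' := by
  intro p hp
  rw [PP, Nat.mem_primesLE] at hp ⊢
  exact ⟨hp.1.trans (Nat.floor_le_floor (by gcongr)), hp.2⟩

lemma mem_block {Y s s' : ℝ} (hY : 0 < Y) (hs : 0 < s) (hs' : 0 < s') {p : ℕ} :
    p ∈ PP Y s' \ PP Y s ↔ p.Prime ∧ s < (p : ℝ) / Y ∧ (p : ℝ) / Y ≤ s' := by
  rw [Finset.mem_sdiff, mem_PP hY hs', mem_PP hY hs]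
  constructor
  · rintro ⟨⟨h1, h2⟩, h3⟩
    refine ⟨h1, ?_, h2⟩
    by_contra h4
    exact h3 ⟨h1, not_lt.mp h4⟩
  · rintro ⟨h1, h2, h3⟩
    exact ⟨⟨h1, h3⟩, fun h4 => absurd h4.2 (not_le.mpr h2)⟩

lemma sum_block {Y s s' s'' : ℝ} (hY : 0 < Y) (h : s ≤ s') (h' : s' ≤ s'') (f : ℕ → ℝ) :
    ∑ p ∈ PP Y s'' \ PP Y s, f p = ∑ p ∈ PP Y s'' \ PP Y s', f p + ∑ p ∈ PP Y s' \ PP Y s, f p := by
  have h1 := sum_sdiff (f := f) (PP_mono hY (h.trans h'))
  have h2 := sum_sdiff (f := f) (PP_mono hY h)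
  have h3 := sum_sdiff (f := f) (PP_mono hY h')
  linarith

lemma block_tendsto (hL : S_LOG) {s s' : ℝ} (hs : 0 < s) (h : s ≤ s') (α β : ℝ) :
    Tendsto (fun Y : ℝ => (∑ p ∈ PP Y s' \ PP Y s, (α - β * Real.log ((p : ℝ) / Y))) *
      (Real.log Y / Y)) atTop (𝓝 (α * (s' - s) - β * (Lam s' - Lam s))) := by
  obtain ⟨h1, h2⟩ := hL s hs
  obtain ⟨h3, h4⟩ := hL s' (hs.trans_le h)
  have key := ((h3.sub h1).const_mul α).sub ((h4.sub h2).const_mul β)
  refine key.congr' ?_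
  filter_upwards [eventually_gt_atTop 0] with Y hY
  have e1 := sum_sdiff (f := fun p : ℕ => (α - β * Real.log ((p : ℝ) / Y))) (PP_mono hY h)
  have e2 : ∀ z : ℝ, ∑ p ∈ PP Y z, (α - β * Real.log ((p : ℝ) / Y)) =
      α * (Nat.primeCounting ⌊z * Y⌋₊ : ℝ) - β * ∑ p ∈ Nat.primesLE ⌊z * Y⌋₊, Real.log ((p : ℝ) / Y) := by
    intro z
    rw [sum_sub_distrib, sum_const, nsmul_eq_mul, PP, Nat.primesLE_card_eq_primeCounting, mul_sum]
    ring
  rw [e2, e2] at e1
  have e3 : ∑ p ∈ PP Y s' \ PP Y s, (α - β * Real.log ((p : ℝ) / Y)) =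
    (α * (Nat.primeCounting ⌊s' * Y⌋₊ : ℝ) - β * ∑ p ∈ Nat.primesLE ⌊s' * Y⌋₊, Real.log ((p : ℝ) / Y))
    - (α * (Nat.primeCounting ⌊s * Y⌋₊ : ℝ) - β * ∑ p ∈ Nat.primesLE ⌊s * Y⌋₊, Real.log ((p : ℝ) / Y)) := by
    linarith
  rw [e3]
  ring

lemma block_FF (hL : S_LOG) {s s' : ℝ} (hs : 0 < s) (h : s ≤ s') {α β : ℝ}
    (hF : ∀ z, s < z → z ≤ s' → FF z = α - β * Real.log z) :
    Tendsto (fun Y : ℝ => (∑ p ∈ PP Y s' \ PP Y s, FF ((p : ℝ) / Y)) *
      (Real.log Y / Y)) atTop (𝓝 (α * (s' - s) - β * (Lam s' - Lam s))) := by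
  refine (block_tendsto hL hs h α β).congr' ?_
  filter_upwards [eventually_gt_atTop 0] with Y hY
  congr 1
  refine sum_congr rfl fun p hp => ?_
  rw [mem_block hY hs (hs.trans_le h)] at hp
  exact (hF _ hp.2.1 hp.2.2).symm

lemma FF_tendsto (hL : S_LOG) : Tendsto (fun Y : ℝ => (∑ p ∈ QQ Y, FF ((p : ℝ) / Y)) *
    (Real.log Y / Y)) atTop (𝓝 (Real.log 2 * (1 - 1 / 100) +
      (Real.log 2 * (21 / 10 - 1) - 1 / 2 * (Lam (21 / 10) - Lam 1)) +
      blk (1 / 9) (21 / 10) 4 + blk (1 / 27) 4 (15 / 2) + blk (1 / 128) (15 / 2) 15 +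
      blk (1 / 450) 15 35)) := by
  have q0 : ∀ z, 21 / 10 < z → z ≤ 4 → qq z = 1 / 9 := fun z h1 h2 => by simp [qq, h2]
  have q1 : ∀ z, 4 < z → z ≤ 15 / 2 → qq z = 1 / 27 := fun z h1 h2 => by
    simp [qq, h2, not_le.mpr h1]
  have q2 : ∀ z, 15 / 2 < z → z ≤ 15 → qq z = 1 / 128 := fun z h1 h2 => by
    have : ¬ z ≤ 4 := by linarith
    simp [qq, h2, not_le.mpr h1, this]
  have q3 : ∀ z, 15 < z → z ≤ 35 → qq z = 1 / 450 := fun z h1 h2 => by
    have h3 : ¬ z ≤ 4 := by linarith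
    have h4 : ¬ z ≤ 15 / 2 := by linarith
    simp [qq, not_le.mpr h1, h3, h4]
  have t0 := block_FF hL (s := 1 / 100) (s' := 1) (by norm_num) (by norm_num)
    (α := Real.log 2) (β := 0) (fun z _ h => by rw [FF_one h]; ring)
  have t1 := block_FF hL (s := 1) (s' := 21 / 10) (by norm_num) (by norm_num)
    (α := Real.log 2) (β := 1 / 2) (fun z h h' => by rw [FF_two h h'])
  have t2 := block_FF hL (s := 21 / 10) (s' := 4) (by norm_num) (by norm_num)
    (α := h3 (1 / 9) - 2 * aa * (1 / 9) ^ 2) (β := 4 * (1 / 9) - 6 * (1 / 9) ^ 2)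
    (fun z h h' => by rw [FF_three h, q0 z h h'])
  have t3 := block_FF hL (s := 4) (s' := 15 / 2) (by norm_num) (by norm_num)
    (α := h3 (1 / 27) - 2 * aa * (1 / 27) ^ 2) (β := 4 * (1 / 27) - 6 * (1 / 27) ^ 2)
    (fun z h h' => by rw [FF_three (by linarith), q1 z h h'])
  have t4 := block_FF hL (s := 15 / 2) (s' := 15) (by norm_num) (by norm_num)
    (α := h3 (1 / 128) - 2 * aa * (1 / 128) ^ 2) (β := 4 * (1 / 128) - 6 * (1 / 128) ^ 2)
    (fun z h h' => by rw [FF_three (by linarith), q2 z h h'])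
  have t5 := block_FF hL (s := 15) (s' := 35) (by norm_num) (by norm_num)
    (α := h3 (1 / 450) - 2 * aa * (1 / 450) ^ 2) (β := 4 * (1 / 450) - 6 * (1 / 450) ^ 2)
    (fun z h h' => by rw [FF_three (by linarith), q3 z h h'])
  have key := ((((t0.add t1).add t2).add t3).add t4).add t5
  have e : Real.log 2 * (1 - 1 / 100) +
      (Real.log 2 * (21 / 10 - 1) - 1 / 2 * (Lam (21 / 10) - Lam 1)) +
      blk (1 / 9) (21 / 10) 4 + blk (1 / 27) 4 (15 / 2) + blk (1 / 128) (15 / 2) 15 +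
      blk (1 / 450) 15 35 = Real.log 2 * (1 - 1 / 100) - 0 * (Lam 1 - Lam (1 / 100)) +
      (Real.log 2 * (21 / 10 - 1) - 1 / 2 * (Lam (21 / 10) - Lam 1)) +
      blk (1 / 9) (21 / 10) 4 + blk (1 / 27) 4 (15 / 2) + blk (1 / 128) (15 / 2) 15 +
      blk (1 / 450) 15 35 := by ring
  rw [e]
  refine key.congr' ?_
  filter_upwards [eventually_gt_atTop 0] with Y hY
  rw [QQ, sum_block hY (s := 1 / 100) (s' := 15) (s'' := 35) (by norm_num) (by norm_num),
    sum_block hY (s := 1 / 100) (s' := 15 / 2) (s'' := 15) (by norm_num) (by norm_num),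
    sum_block hY (s := 1 / 100) (s' := 4) (s'' := 15 / 2) (by norm_num) (by norm_num),
    sum_block hY (s := 1 / 100) (s' := 21 / 10) (s'' := 4) (by norm_num) (by norm_num),
    sum_block hY (s := 1 / 100) (s' := 1) (s'' := 21 / 10) (by norm_num) (by norm_num)]
  ring

lemma card_tendsto (hL : S_LOG) : Tendsto (fun Y : ℝ => ((QQ Y).card : ℝ) *
    (Real.log Y / Y)) atTop (𝓝 (35 - 1 / 100)) := by
  have h := block_tendsto hL (s := 1 / 100) (s' := 35) (by norm_num) (by norm_num) 1 0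
  have e : (1 : ℝ) * (35 - 1 / 100) - 0 * (Lam 35 - Lam (1 / 100)) = 35 - 1 / 100 := by ring
  rw [e] at h
  refine h.congr fun Y => ?_
  simp [QQ]

lemma NN_tendsto : Tendsto (fun Y : ℝ => Y / Real.log Y) atTop atTop := by
  have h1 : Tendsto (fun Y : ℝ => Real.log Y / Y) atTop (𝓝[>] 0) := by
    rw [tendsto_nhdsWithin_iff]
    refine ⟨Real.isLittleO_log_id_atTop.tendsto_div_nhds_zero, ?_⟩
    filter_upwards [eventually_gt_atTop 1] with Y hY
    have : 0 < Real.log Y := Real.log_pos hY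
    have : 0 < Y := by linarith
    exact Set.mem_Ioi.mpr (by positivity)
  have h2 := h1.inv_tendsto_nhdsGT_zero
  refine h2.congr fun Y => ?_
  simp [inv_div]

/-- the parameters -/
theorem params (hL : S_LOG) (hC : S_CONST) (n0 : ℕ) {δ : ℝ} (hδ : 0 < δ) (D : ℝ) :
    ∃ Y : ℝ, 1000 ≤ Y ∧
      (Real.exp (aa - 1) / (3 / 2) + 1 / 200) * (Y / Real.log Y) ≤ ∑ p ∈ QQ Y, FF ((p : ℝ) / Y) ∧
      ((QQ Y).card : ℝ) ≤ 36 * (Y / Real.log Y) ∧ n0 ≤ (QQ Y).card ∧
      Real.log (2 * ((QQ Y).card : ℝ) + 1) + 2 * Real.log 2 ≤ 1 / 800 * (Y / Real.log Y) ∧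
      D + 1 ≤ Y / Real.log Y ∧ (1 - δ) * Real.log (35 * Y) ≤ Real.log (Y / Real.log Y) ∧
      2000000 ≤ Real.log Y := by
  have c1 := (FF_tendsto hL).eventually (lt_mem_nhds hC)
  have c2 := (card_tendsto hL).eventually (gt_mem_nhds (show (35 - 1 / 100 : ℝ) < 36 by norm_num))
  have c3 := (card_tendsto hL).eventually (lt_mem_nhds (show (1 : ℝ) < 35 - 1 / 100 by norm_num))
  have c4 := NN_tendsto.eventually_ge_atTop (max (D + 1) (n0 : ℝ))
  have c5 := NN_tendsto.eventually (show ∀ᶠ x : ℝ in atTop,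
      Real.log (72 * x + 1) + 2 * Real.log 2 ≤ 1 / 800 * x by
    have h1 : Tendsto (fun x : ℝ => 72 * x + 1) atTop atTop :=
      tendsto_atTop_add_const_right _ _ (tendsto_id.const_mul_atTop (by norm_num))
    have h2 := (Real.isLittleO_log_id_atTop.comp_tendsto h1).bound
      (show (0 : ℝ) < 1 / (100 * 1600) by norm_num)
    filter_upwards [h2, eventually_ge_atTop 1000000] with x hx hx2
    simp only [Function.comp_apply, id_eq, Real.norm_eq_abs] at hx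
    rw [abs_of_nonneg (show (0 : ℝ) ≤ 72 * x + 1 by linarith)] at hx
    have h3 := (le_abs_self _).trans hx
    have h4 := Real.log_two_lt_d9
    linarith)
  have c6 : ∀ᶠ Y : ℝ in atTop, (1 - δ) * Real.log (35 * Y) ≤ Real.log (Y / Real.log Y) := by
    have h3 := (Real.isLittleO_log_id_atTop.comp_tendsto Real.tendsto_log_atTop).bound
      (show (0 : ℝ) < δ / 2 by linarith)
    filter_upwards [h3, Real.tendsto_log_atTop.eventually_ge_atTop (Real.log 35 / (δ / 2)),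
      Real.tendsto_log_atTop.eventually_ge_atTop 1, eventually_gt_atTop 0] with Y h4 h5 h6 h7
    simp only [Function.comp_apply, id_eq, Real.norm_eq_abs] at h4
    rw [abs_of_nonneg (show (0 : ℝ) ≤ Real.log Y by linarith)] at h4
    have h8 := (le_abs_self _).trans h4
    have h9 : 0 < Real.log 35 := Real.log_pos (by norm_num)
    rw [div_le_iff₀ (by linarith)] at h5
    rw [Real.log_mul (by norm_num) (by linarith), Real.log_div (by linarith) (by linarith)]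
    nlinarith
  obtain ⟨Y, k1, k2, k3, k4, k5, k6, k7, k8⟩ := (c1.and (c2.and (c3.and (c4.and (c5.and (c6.and
    ((Real.tendsto_log_atTop.eventually_ge_atTop 2000000).and (eventually_ge_atTop 1000)))))))).exists
  have hl : 0 < Real.log Y := by linarith
  have hY : 0 < Y := by linarith
  have hN : 0 < Y / Real.log Y := by positivity
  have hinv : Real.log Y / Y = (Y / Real.log Y)⁻¹ := by rw [inv_div]
  rw [hinv, ← div_eq_mul_inv] at k1 k2 k3
  rw [lt_div_iff₀ hN] at k1 k3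
  rw [div_lt_iff₀ hN] at k2
  refine ⟨Y, k8, k1.le, k2.le, ?_, ?_, (le_max_left _ _).trans k4, k6, k7⟩
  · have h1 : (n0 : ℝ) ≤ (QQ Y).card := by
      have := (le_max_right _ _).trans k4
      linarith
    exact_mod_cast h1
  · refine le_trans ?_ k5
    have h2 : Real.log (2 * ((QQ Y).card : ℝ) + 1) ≤ Real.log (72 * (Y / Real.log Y) + 1) := by
      apply Real.log_le_log (by positivity)
      linarith
    linarith

end Pool.Agent.Run7.h214.HP
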