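import Pool.Agent.Run7.h214.HP.Iface

/-! The distributions and the kernels. -/

set_option autoImplicit false

namespace Pool.Agent.Run7.h214.HP

open Finset Filter Topology

noncomputable def qq (s : ℝ) : ℝ :=
  if s ≤ 4 then 1 / 9 else if s ≤ 15 / 2 then 1 / 27 else if s ≤ 15 then 1 / 128 else 1 / 450

noncomputable def dis (s : ℝ) : Fin 3 → ℝ :=
  if s ≤ 21 / 10 then ![1 / 2, 1 / 2, 0] else ![qq s, 1 - 2 * qq s, qq s]

noncomputable def al (s : ℝ) : ℝ :=
  if s ≤ 1 then 0 else if s ≤ 21 / 10 then √(Real.log s) else √((Real.log s + aa) / 4)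

noncomputable def be (s : ℝ) : ℝ :=
  if s ≤ 21 / 10 then 0 else √(Real.log s - (Real.log s + aa) / 4)

noncomputable def ff (s : ℝ) : Fin 2 → Fin 3 → ℝ :=
  ![fun v => al s * ((v : ℕ) : ℝ), fun v => if v = 1 then be s else 0]

noncomputable def FF (s : ℝ) : ℝ :=
  (∑ a, Real.negMulLog (dis s a)) -
    ∑ l, ∑ a, ∑ b, dis s a * dis s b * (ff s l a - ff s l b) ^ 2

lemma qq_mem (s : ℝ) : 1 / 450 ≤ qq s ∧ qq s ≤ 1 / 9 := by
  unfold qq; split_ifs <;> norm_num

lemma exp_neg_seven : Real.exp (-7) ≤ 1 / 450 := by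
  rw [Real.exp_neg, one_div]
  apply inv_anti₀ (by norm_num)
  have h1 : (2.7 : ℝ) ≤ Real.exp 1 := by have := Real.exp_one_gt_d9; linarith
  have h2 : Real.exp 7 = Real.exp 1 ^ 7 := by rw [← Real.exp_nat_mul]; norm_num
  rw [h2]
  calc (450 : ℝ) ≤ 2.7 ^ 7 := by norm_num
    _ ≤ Real.exp 1 ^ 7 := by gcongr

lemma dis_or (s : ℝ) (a : Fin 3) : dis s a = 0 ∨ Real.exp (-7) ≤ dis s a := by
  have h := qq_mem s
  have he := exp_neg_seven
  unfold dis
  split_ifs
  · fin_cases a
    · right; simp; linarith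
    · right; simp; linarith
    · left; simp
  · right
    fin_cases a <;> simp <;> linarith

lemma dis_sum (s : ℝ) : ∑ a, dis s a = 1 := by
  unfold dis
  split_ifs
  · simp [Fin.sum_univ_three]; norm_num
  · simp [Fin.sum_univ_three]; ring

lemma log21 : 71 / 100 ≤ Real.log (21 / 10) := by
  have h1 : Real.log (21 / 10 : ℝ) = Real.log 2 + Real.log (21 / 20) := by
    rw [← Real.log_mul (by norm_num) (by norm_num)]; norm_num
  have h2 := Real.one_sub_inv_le_log_of_pos (show (0 : ℝ) < 21 / 20 by norm_num)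
  have h3 := Real.log_two_gt_d9
  rw [h1]
  norm_num at h2 ⊢
  linarith

lemma log35 : Real.log 35 ≤ 4 := by
  rw [Real.log_le_iff_le_exp (by norm_num)]
  have h1 : (2.7 : ℝ) ≤ Real.exp 1 := by have := Real.exp_one_gt_d9; linarith
  have h2 : Real.exp 4 = Real.exp 1 ^ 4 := by rw [← Real.exp_nat_mul]; norm_num
  rw [h2]
  calc (35 : ℝ) ≤ 2.7 ^ 4 := by norm_num
    _ ≤ Real.exp 1 ^ 4 := by gcongr

lemma al_sq_zero {s : ℝ} (h : s ≤ 1) : al s = 0 := by simp [al, h]

lemma al_sq_one {s : ℝ} (h : 1 < s) (h2 : s ≤ 21 / 10) : al s ^ 2 = Real.log s := by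
  rw [al, if_neg (not_le.mpr h), if_pos h2, Real.sq_sqrt (Real.log_nonneg h.le)]

lemma al_sq_two {s : ℝ} (h : 21 / 10 < s) : al s ^ 2 = (Real.log s + aa) / 4 := by
  have h0 : 0 ≤ Real.log s := Real.log_nonneg (by linarith)
  rw [al, if_neg (by linarith), if_neg (by linarith), Real.sq_sqrt (by unfold aa; linarith)]

lemma be_zero {s : ℝ} (h : s ≤ 21 / 10) : be s = 0 := by simp [be, h]

lemma be_sq {s : ℝ} (h : 21 / 10 < s) : be s ^ 2 = Real.log s - (Real.log s + aa) / 4 := by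
  have h0 : 71 / 100 ≤ Real.log s := log21.trans (Real.log_le_log (by norm_num) h.le)
  rw [be, if_neg (by linarith), Real.sq_sqrt (by unfold aa; linarith)]

lemma ff_bound {s : ℝ} (h0 : 0 < s) (h : s ≤ 35) (a : Fin 3) : ∑ l, ff s l a ^ 2 ≤ 7 := by
  have hl : Real.log s ≤ 4 := (Real.log_le_log h0 h).trans log35
  rcases le_or_gt s 1 with h1 | h1
  · have e1 := al_sq_zero h1
    have e2 := be_zero (show s ≤ 21 / 10 by linarith)
    fin_cases a <;> simp [ff, Fin.sum_univ_two, e1, e2]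
  · rcases le_or_gt s (21 / 10) with h2 | h2
    · have e1 := al_sq_one h1 h2
      have e2 := be_zero h2
      have e3 : Real.log s ≤ 11 / 10 := by
        have := Real.log_le_sub_one_of_pos h0
        linarith
      fin_cases a <;> simp [ff, Fin.sum_univ_two, e2, mul_pow, e1] <;> linarith
    · have e1 := al_sq_two h2
      have e2 := be_sq h2
      have h3 : 71 / 100 ≤ Real.log s := log21.trans (Real.log_le_log (by norm_num) h2.le)
      have ha : aa = 213 / 100 := rfl
      fin_cases a <;> simp [ff, Fin.sum_univ_two, mul_pow, e1, e2] <;> linarith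

lemma maj {s : ℝ} (h0 : 0 < s) (v w : Fin 3) (hv : 0 < dis s v) (hw : 0 < dis s w) (hne : v ≠ w) :
    Real.log s + aa * ((((v : ℕ) - (w : ℕ) + ((w : ℕ) - (v : ℕ)) : ℕ) : ℝ) - 1) ≤
      ∑ l, (ff s l v - ff s l w) ^ 2 := by
  have ha : aa = 213 / 100 := rfl
  rcases le_or_gt s (21 / 10) with h2 | h2
  · have e2 := be_zero h2
    have hd : dis s 2 = 0 := by simp [dis, h2]
    have hA : Real.log s ≤ al s ^ 2 := by
      rcases le_or_gt s 1 with h1 | h1
      · rw [al_sq_zero h1]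
        simpa using Real.log_nonpos h0.le h1
      · rw [al_sq_one h1 h2]
    have hv2 : v ≠ 2 := by rintro rfl; linarith
    have hw2 : w ≠ 2 := by rintro rfl; linarith
    fin_cases v <;> fin_cases w <;> simp_all [ff, Fin.sum_univ_two]
  · have e1 := al_sq_two h2
    have e2 := be_sq h2
    fin_cases v <;> fin_cases w <;> simp [ff, Fin.sum_univ_two] at hne ⊢ <;> nlinarith

lemma FF_one {s : ℝ} (h : s ≤ 1) : FF s = Real.log 2 := by
  have e1 := al_sq_zero h
  have e2 := be_zero (show s ≤ 21 / 10 by linarith)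
  have h2 : s ≤ 21 / 10 := by linarith
  simp [FF, ff, Fin.sum_univ_three, e1, e2, dis, h2, Real.negMulLog]
  ring

lemma FF_two {s : ℝ} (h : 1 < s) (h2 : s ≤ 21 / 10) : FF s = Real.log 2 - 1 / 2 * Real.log s := by
  have e1 := al_sq_one h h2
  have e2 := be_zero h2
  simp [FF, ff, Fin.sum_univ_two, Fin.sum_univ_three, e1, e2, dis, h2, Real.negMulLog]
  ring

lemma FF_three {s : ℝ} (h : 21 / 10 < s) : FF s = (h3 (qq s) - 2 * aa * qq s ^ 2) -
    (4 * qq s - 6 * qq s ^ 2) * Real.log s := by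
  have e1 := al_sq_two h
  have e2 := be_sq h
  have h2 : ¬ s ≤ 21 / 10 := by linarith
  simp only [FF, ff, Fin.sum_univ_two, Fin.sum_univ_three, dis, h2, h3, if_false,
    Matrix.cons_val_zero, Matrix.cons_val_one, Matrix.cons_val, Fin.isValue]
  have h21 : ((2 : Fin 3) = 1) = False := by decide
  norm_num [h21]
  linear_combination (-4 * qq s) * e1 + (-4 * qq s * (1 - 2 * qq s)) * e2

end Pool.Agent.Run7.h214.HP
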